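import Pool.Agent.W23.KS.Fin4

/-!
KS project (helper23): the upper bound.
-/

namespace Pool.Agent.W23.KS

open Finset Filter
open Pool.Agent.H442R2
open Pool.Agent.H442R2.KF
open Pool.Agent.W23.DC
open Pool.Agent.W23.SG
open Pool.Agent.W23.PL
open Pool.Agent.W23.KT

theorem G3_xx {A : Finset ℕ} {X t r : ℕ} {S : Finset (ℤ × ℕ)} (hX : 3 ≤ X) {ε₁ : ℝ}
    (hε : ε₁ ≤ 1 / r) {p : ℕ} (hp : p ∈ G3 A X t r S) :
    xx (PK X (t + 2) ε₁ S) (Fp S p) = 1 := by
  classical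
  have hX3 : (3 : ℝ) ≤ X := by exact_mod_cast hX
  have hX0 : (0 : ℝ) < X := by linarith
  have hL1 : 1 < Real.log X := by
    rw [Real.lt_log_iff_exp_lt hX0]
    exact Real.exp_one_lt_three.trans_le hX3
  unfold G3 at hp
  rw [mem_filter] at hp
  obtain ⟨-, hgood⟩ := hp
  unfold xx
  rw [if_pos]
  intro l hl hld
  obtain ⟨hlP, -⟩ := mem_PK.1 hl
  obtain ⟨⟨hl1, hl2⟩, hlp, hl3, hl4⟩ := mem_P1.1 hlP
  unfold Fp at hld
  obtain ⟨L, hLS, hlL⟩ := (Nat.prime_iff_prime_int.1 hlp).exists_mem_finset_dvd hld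
  obtain ⟨m, s, e1, e2, e3, e4, e5, e6⟩ := hgood L hLS
  have hln : l ∣ m * s := by
    rw [← e1]
    exact Int.natCast_dvd.1 hlL
  rcases (hlp.dvd_mul).1 hln with h | h
  · have h1 : l ≤ m := Nat.le_of_dvd (by omega) h
    have h2 : (l : ℝ) ≤ Real.log X ^ t := le_trans (by exact_mod_cast h1) e3
    have h3 : Real.log X ^ t < Real.log X ^ (t + 2) := pow_lt_pow_right₀ hL1 (by omega)
    linarith
  · have h1 := e6 l (Nat.mem_primeFactors.2 ⟨hlp, h, by omega⟩)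
    have h2 := (tt_lt_iff (by omega : 2 ≤ X) hlp.pos _).1 hl4
    have h3 : (X : ℝ) ^ ε₁ ≤ (X : ℝ) ^ (1 / r : ℝ) :=
      Real.rpow_le_rpow_of_exponent_le (by linarith) hε
    linarith

/-- **the upper bound of the same order** -/
theorem upperK (hUBSK : St_UBSK) (hVLBK : St_VLBK) (k M t r : ℕ) (hk : 1 ≤ k) (hr : 1 ≤ r) :
    ∃ (C : ℝ) (X₀ : ℕ), 0 < C ∧ ∀ X : ℕ, X₀ ≤ X → ∀ S, SysK k M X S →
      ((G3 ((Icc 1 X).filter Nat.Prime) X t r S).card : ℝ) ≤
        C * (Real.log (Real.log X) / Real.log X) ^ k * (X / Real.log X) := by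
  classical
  have hr0 : (0 : ℝ) < r := by exact_mod_cast hr
  set ε₁ : ℝ := 1 / (r + 1) with hε₁
  have hε0 : 0 < ε₁ := by positivity
  have hε1 : ε₁ ≤ 1 := by
    rw [hε₁, div_le_one (by positivity)]
    linarith
  have hεr : ε₁ ≤ 1 / r := by
    rw [hε₁]
    exact one_div_le_one_div_of_le hr0 (by linarith)
  obtain ⟨C, N₁, hC, hU⟩ := hUBSK k M (t + 2) hk (by omega) ε₁ hε0 hε1
  obtain ⟨c₂, hc₂, hV⟩ := hVLBK k hk
  obtain ⟨N₂, hN₂⟩ := hV M (t + 2) (by omega) ε₁ hε0 hε1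
  set W : ℝ := C * (1 / c₂ * (((t + 2 : ℕ) : ℝ) / ε₁) ^ k) with hW
  have hW0 : 0 < W := by positivity
  refine ⟨W, max (max N₁ N₂) 3, hW0, ?_⟩
  intro X hX S hS
  have hXN₁ : N₁ ≤ X := ((le_max_left _ _).trans (le_max_left _ _)).trans hX
  have hXN₂ : N₂ ≤ X := ((le_max_right _ _).trans (le_max_left _ _)).trans hX
  have hX3' : 3 ≤ X := (le_max_right _ _).trans hX
  have hX3 : (3 : ℝ) ≤ X := by exact_mod_cast hX3'
  have hX0 : (0 : ℝ) < X := by linarith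
  have hL1 : 1 < Real.log X := by
    rw [Real.lt_log_iff_exp_lt hX0]
    exact Real.exp_one_lt_three.trans_le hX3
  have hL : 0 < Real.log X := by linarith
  have hLL : 0 < Real.log (Real.log X) := Real.log_pos hL1
  obtain ⟨L, hLS⟩ : S.Nonempty := by
    rw [← Finset.card_pos, hS.sys.card]
    omega
  have h1 := hU X hXN₁ S hS L hLS 1 le_rfl (by
      push_cast
      exact Real.one_le_rpow (by linarith) (by norm_num)) (by simp) (by simp)
  have h4 := (hN₂ X hXN₂).2.1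
  have h6 : ((Nat.totient 1 : ℕ) : ℝ) = 1 := by simp
  rw [h6, one_mul] at h1
  have h5 : ((G3 ((Icc 1 X).filter Nat.Prime) X t r S).card : ℝ) ≤
      C * (X / Real.log X) * Vk k (P1 X (t + 2) ε₁) := by
    refine le_trans ?_ h1
    refine Nat.cast_le.2 (Finset.card_le_card ?_)
    intro p hp
    have h7 := G3_xx hX3' hεr hp
    unfold G3 at hp
    rw [mem_filter, mem_filter] at hp
    rw [mem_filter]
    refine ⟨hp.1.1, hp.1.2, by simp, h7⟩
  refine h5.trans ?_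
  calc C * (X / Real.log X) * Vk k (P1 X (t + 2) ε₁)
      ≤ C * (X / Real.log X) * (1 / c₂ *
        (((t + 2 : ℕ) : ℝ) * Real.log (Real.log X) / (ε₁ * Real.log X)) ^ k) := by gcongr
    _ = _ := by
        have hb : ((t + 2 : ℕ) : ℝ) * Real.log (Real.log X) / (ε₁ * Real.log X) =
            ((t + 2 : ℕ) : ℝ) / ε₁ * (Real.log (Real.log X) / Real.log X) := by
          rw [div_mul_div_comm]
        rw [hW, hb, mul_pow]
        ring

end Pool.Agent.W23.KS
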