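import Pool.Agent.W23.KT.Defs

/-!
KS project (helper23): almost prime k-tuples in dense sets of primes, lower bounds of the expected
order `(log log X/log X)^k |A|` with the sharp number of exceptional systems.

Every `St_X` below is the statement of one task; the doc comment is its complete proof.  The file of
a task is `Pool/Agent/W<yourseat>/KS/<Name>.lean`, the theorem has the name given in the comment.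
Definitions used: `KT.*` (`Pool/Agent/W23/KT/Defs.lean`: systems of forms `Sys`, product `Fp`, good
primes `gp`, `kw`, `dk`, `CofK`, `RK`, `rK`, `DK`, `Mo`), `PL.*` (`Pool/Agent/W23/PL/Defs.lean`: `P1`,
`xx`, `DW`, `Ev`, `LF`), `DC.*` (`tt`, `pr`, `SWs`).
-/

namespace Pool.Agent.W23.KS

open Finset
open Pool.Agent.H442R2
open Pool.Agent.H442R2.KF
open Pool.Agent.W23.DC
open Pool.Agent.W23.SG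
open Pool.Agent.W23.PL
open Pool.Agent.W23.KT

/-- systems of `k` forms `a + b n` with `a ≠ 0` -/
structure SysK (k M N : ℕ) (S : Finset (ℤ × ℕ)) : Prop where
  sys : Sys k M N S
  nz : ∀ L ∈ S, L.1 ≠ 0

/-- `∏ (1 - k/p)` -/
noncomputable def Vk (k : ℕ) (P : Finset ℕ) : ℝ := ∏ p ∈ P, (1 - (k : ℝ) / p)

open Classical in
/-- the good primes in `[(log N)^B, N^ε₁)` -/
noncomputable def PK (N B : ℕ) (ε₁ : ℝ) (S : Finset (ℤ × ℕ)) : Finset ℕ :=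
  (P1 N B ε₁).filter (fun p => gp S p)

/-- `∑ θ_e k^ω(e) / e` -/
noncomputable def hatk (k : ℕ) (th : ℕ → ℝ) (D : ℕ) : ℝ := ∑ e ∈ Icc 1 D, th e * kw k e / e

/-- the moduli: squarefree, `1 < d ≤ N^(49/100)`, prime factors good and at least `N^ε₁` -/
def BlK (N : ℕ) (ε₁ : ℝ) (S : Finset (ℤ × ℕ)) (d : ℕ) : Prop :=
  Mo ((N : ℝ) ^ (ε₁ / 2)) ⌊(N : ℝ) ^ (49 / 100 : ℝ)⌋₊ S d ∧
    ∀ p : ℕ, p.Prime → p ∣ d → ε₁ ≤ tt N p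

/-- **FLWK** (theorem `FLWK : St_FLWK`; copy and adapt `Pool/Agent/W308/PL/FLW1.lean`, `FLW2.lean`,
`FLW.lean`, where this is proved for `k = 1`, `P = P1 N B ε₁`; see also `Pool/Agent/W762/KT/BHK.lean`).
Fundamental lemma of dimension `k`, Brun–Hooley.

Proof.  The construction of `th`, `dl` (blocks `P_j` of `P`, `b_j = b + j`, `∏ T_j` and
`∑_i E_i ∏_{j ≠ i} T_j`) and the pointwise inequalities are exactly as in FLW, for any `P ⊆ P1 N B ε₁`.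
Main terms with the weights `k/p` in place of `1/p` (`kw k e/e = ∏_{p | e} k/p` for squarefree `e`):
`hatk k th = ∏_j T̂_j`, `V_j = ∏_{p ∈ P_j} (1 - k/p) ≤ T̂_j ≤ V_j + Ê_j`,
`Ê_j ≤ L_j^(2b_j+1)/(2b_j+1)!`, `L_j = ∑_{P_j} k/p ≤ k` and `V_j ≥ e^(-2k)` for `N ≥ N₀` (as
`∑_{P_j} 1/p ≤ 7/10`, see FLW, and `1 - x ≥ e^(-2x)` for `x ≤ 1/2`; all `p ≥ (log N)^B ≥ 2k`).  So
`Ê_j/V_j ≤ e^(2k) k^(2b_j+1)/(2b_j+1)! =: ρ_j`, `∑_j ρ_j ≤ 2 ρ_0 ≤ 1` for `b ≥ b(k)`, and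
`|hatk k th - Vk k P| ≤ 4 ρ_0 Vk k P`, `|hatk k dl| ≤ 4 ρ_0 Vk k P`; with
`b = ⌊(η₀/ε₁ - 6)/4⌋` and `k! ≥ (k/e)^k` one has `4 ρ_0 ≤ exp(-A/ε₁)` for `ε₁ ≤ ε*(k, η₀, A)`. -/
def St_FLWK : Prop := ∀ k : ℕ, 1 ≤ k → ∀ η₀ A : ℝ, 0 < η₀ → 0 < A → ∃ εs : ℝ, 0 < εs ∧
    ∀ ε₁ : ℝ, 0 < ε₁ → ε₁ ≤ εs → ∀ B : ℕ, 1 ≤ B → ∃ N₀ : ℕ, ∀ N : ℕ, N₀ ≤ N →
    ∀ D : ℕ, D = ⌊(N : ℝ) ^ η₀⌋₊ → ∀ P : Finset ℕ, P ⊆ P1 N B ε₁ →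
    ∃ th dl : ℕ → ℝ, DW P D (Real.log N) th ∧ DW P D (Real.log N) dl ∧
      (∀ m : ℤ, xx P m ≤ Ev th D m ∧ Ev th D m - xx P m ≤ Ev dl D m) ∧
      |hatk k th D - Vk k P| ≤ Real.exp (-(A / ε₁)) * Vk k P ∧
      |hatk k dl D| ≤ Real.exp (-(A / ε₁)) * Vk k P

/-- **VLBK** (theorem `VLBK : St_VLBK`; import `Pool.Agent.W655.PL.VLB`: the case `k = 1`, `PL.VV`).
Mertens.

Proof.  `1 - k/p ≤ (1 - 1/p)^k` (Bernoulli) and `1 - k/p ≥ (1 - 1/p)^k (1 - 2k²/p²)` for `p ≥ 2k`;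
all `p ∈ P1` are `≥ (log N)^B → ∞`, and `∏ (1 - 2k²/p²) ≥ 1 - ∑ 2k²/p² ≥ 1/2`.  So
`VV(P1)^k/2 ≤ Vk k P1 ≤ VV(P1)^k`, and VLB.  Last part: `Vk k (PK S) ≥ Vk k P1` (subset, factors in
`[0, 1]`).  The primes of `P1 \ PK`: such a prime divides some `b` or some `a b' - a' b ≠ 0`
(`L ≠ L'` coprime with `b, b' ≥ 1` gives `≠ 0`), and a nonzero integer `m` has at most
`log₂ |m|` prime factors; `b ≤ N^M`, `|a b' - a' b| ≤ 2 N^(2M)`; so their number is at most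
`(kM + k²(2M+1)) log N/log 2`, each is `≥ (log N)^B ≥ (log N)²`, so
`Vk k (PK S)/Vk k P1 = ∏ (1 - k/p)^(-1) ≤ exp(2k C log N/(log N)²) ≤ 2`. -/
def St_VLBK : Prop := ∀ k : ℕ, 1 ≤ k → ∃ c₂ : ℝ, 0 < c₂ ∧ ∀ M B : ℕ, 2 ≤ B → ∀ ε₁ : ℝ, 0 < ε₁ →
    ε₁ ≤ 1 → ∃ N₀ : ℕ, ∀ N : ℕ, N₀ ≤ N →
      c₂ * (B * Real.log (Real.log N) / (ε₁ * Real.log N)) ^ k ≤ Vk k (P1 N B ε₁) ∧
      Vk k (P1 N B ε₁) ≤ 1 / c₂ * (B * Real.log (Real.log N) / (ε₁ * Real.log N)) ^ k ∧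
      ∀ S, Sys k M N S → Vk k (P1 N B ε₁) ≤ Vk k (PK N B ε₁ S) ∧
        Vk k (PK N B ε₁ S) ≤ 2 * Vk k (P1 N B ε₁)

/-- **PBXK** (theorem `PBXK : St_PBXK`; adapt `Pool/Agent/W82/KT/PBK.lean` (reusable lemmas there),
compare `Pool/Agent/W655/PL/PBX.lean`).

Proof.  As PBK with explicit constants: the number of `y`-rough divisors (`y = N^ε`) of
`Fp S n ≠ 0`, `|Fp S n| ≤ N^((M+1)k) (1 + |n|/N)^k`, is at most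
`2^(log|Fp S n|/(ε log N)) ≤ exp((M+1)k/ε) (1 + |n|/N)^(k/(ε log N))`, exponent `≤ 1/4` for
`ε log N ≥ 4k`.  For rough `d ≤ N`: `ω(d) ≤ 1/ε`, `kw k d ≤ (k+1)^(1/ε) = exp(log(k+1)/ε)`, and
`∑_{d ≤ N rough} 1/d ≤ exp(4/ε)` for `N ≥ N₀(ε)` (proof of `W655.PL.PBX`).  `|RK| ≤ #rd +
∑ kw/d`. -/
def St_PBXK : Prop := ∀ k M : ℕ, ∃ c₁ : ℝ, 0 < c₁ ∧ ∀ ε : ℝ, 0 < ε → ε ≤ 1 → ∃ N₀ : ℕ,
    ∀ N X : ℕ, N₀ ≤ N → X ≤ N → ∀ S : Finset (ℤ × ℕ), Sys k M N S →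
    ∀ c : ℕ → ℝ, CofK ((N : ℝ) ^ ε) X S c → ∀ n : ℤ,
      |rK k c X S n| ≤ Real.exp (c₁ / ε) * (1 + |(n : ℝ)| / N) ^ (1 / 4 : ℝ)

/-- **CORK** (theorem `CORK (hRSK : St_RSK) (hGS : BX.St_GS) : St_CORK`; copy and adapt
`Pool/Agent/W249/PL/{CA,CB,COR}.lean`; `St_RSK` is proved in `Pool/Agent/W721/KT/RSK.lean`).
Correlations of divisor sums.

Proof.  (A) Write `q = lcm q₁ q₂`, `F = Fp S`, `F' = Fp S'`,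
`S(q,e,e') = ∑' Wt 1_{q | n} 1_{e | F(n)} 1_{e' | F'(n)}`; the sum is `∑ λλ θ_e θ'_{e'} S(q,e,e')` over
`q₁, q₂ ≤ z`, `e, e' ≤ D`, all squarefree, the moduli are `≤ N^(1/20)`.
(1) `q, e, e'` pairwise coprime: by RSK `e | F(n)` iff `n` lies in one of `kw k e` classes modulo `e`,
similarly `e'`; Chinese remainder theorem: `kw k e · kw k e'` classes modulo `q e e' ≤ N^(1/5)`, so
`S = kw kw' N/(q e e') + O(kw kw' N^(-5))` (`KF.poisson_trunc` with `J = 0`).  Here `kw k e ≤ e`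
(all prime factors of `e` are `≥ y ≥ k`).
(2) otherwise and `S ≠ 0`: some prime `l` divides two of `q, e, e'`, so `l ≥ y`, and a solution `n`
shows: if `l | q`, `l | e` then `l | n`, `l | a + b n` for some `(a, b) ∈ S`, so `l | a ≠ 0`; similarly
for `l | q, e'`; if `l | e, e'` then `l | L(n), L'(n)` with `L ∈ S`, `L' ∈ S'`, `L ≠ L'`, so
`l | a b' - a' b ≠ 0`.  The number of such `l` is at most `C(k, M) log N`.  The conditions on `n`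
define at most `kw k e · kw k e'` classes modulo `m = lcm(q, e, e')` (for each prime `p | m` at most
`k^(number of e, e' divisible by p)` classes modulo `p`), so `S ≤ kw kw' 8 N/m` (GS), and
`∑ kw(e) kw(e')/lcm(q₁,q₂,e,e')` over squarefree `q₁,q₂,e,e' ≤ N^(1/20)` with `l | lcm` is at most
`(15 k²/l) ∏_{p ≤ N} (1 + 15 k²/p) ≤ C (log N)^(15 k²)/l`.  Total `≤ C U² N (log N)^(15k²+1)/y`.
(3) In the main term `N LF hatk hatk = ∑ λλθθ' N kw kw'/(q e e')` the quadruples which are not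
pairwise coprime contribute at most `C U² N (log N)^E ∑_{l ≥ y} 1/l² ≤ C U² N (log N)^E/y`.
(4) The errors of (1): `U² z² D² · D² N^(-5) ≤ U²`.
(B) The same for one factor (simpler: `q`, `e` only), or from (A) with `th' = 1_{e = 1}`, `P' = ∅` and
`S'` any `k` forms `(a, 1)`, `1 ≤ a ≤ 2k`, not in `S` (`M ≥ 1`, `2k ≤ N`). -/
def St_CORK : Prop := ∀ k M : ℕ, 1 ≤ k → 1 ≤ M → ∃ (C : ℝ) (E N₀ : ℕ), 0 < C ∧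
    ∀ N : ℕ, N₀ ≤ N → ∀ z D : ℕ,
    (z : ℝ) ≤ (N : ℝ) ^ (1 / 20 : ℝ) → 1 ≤ D → (D : ℝ) ≤ (N : ℝ) ^ (1 / 20 : ℝ) → ∀ lam : ℕ → ℝ,
    SWs z lam → ∀ S : Finset (ℤ × ℕ), SysK k M N S →
    ∀ (P : Finset ℕ) (y : ℝ), 2 ≤ y → (k : ℝ) ≤ y → (∀ p ∈ P, p.Prime ∧ y ≤ (p : ℝ) ∧ gp S p) →
    ∀ (U : ℝ) (th : ℕ → ℝ), 1 ≤ U → DW P D U th →
    (∀ S' : Finset (ℤ × ℕ), SysK k M N S' → Disjoint S S' → ∀ P' : Finset ℕ,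
      (∀ p ∈ P', p.Prime ∧ y ≤ (p : ℝ) ∧ gp S' p) → ∀ th' : ℕ → ℝ, DW P' D U th' →
      |∑' n : ℤ, Wt N n * BX.nuS lam z n * (Ev th D (Fp S n) * Ev th' D (Fp S' n)) -
        N * LF lam z * (hatk k th D * hatk k th' D)| ≤ C * U ^ 2 * (N * Real.log N ^ E / y + 1)) ∧
    |∑' n : ℤ, Wt N n * BX.nuS lam z n * Ev th D (Fp S n) - N * LF lam z * hatk k th D| ≤
      C * U ^ 2 * (N * Real.log N ^ E / y + 1)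

/-- **TTCK** (theorem `TTCK (hPA : St_PA) (hRSK : St_RSK) : St_TTCK`; see the coprime part of
`Pool/Agent/W45/KT/TTK.lean`).  One coprime pair of moduli, one class `b` modulo `Q`.

Proof.  By RSK and the Chinese remainder theorem the conditions `Q | n - b`, `d | F(n)`, `d' | F'(n)`
(`F = Fp S`, `F' = Fp S'`) are `kw k d · kw k d'` classes modulo `Q d d' ≤ N^(199/200)`, so by PA
(`δ = 1/200`) the sum of `Wt` over them is `kw kw' N/(Q d d') + O(kw kw' N^(-5))`; the same for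
`(Q, d)`, `(Q, d')`, `Q`.  Expanding the product the main terms cancel, and the errors are at most
`kw kw' (1 + 1/d' + 1/d + 1/(dd')) N^(-5)`. -/
def St_TTCK : Prop := ∃ N₀ : ℕ, ∀ N : ℕ, N₀ ≤ N → ∀ k Q d d' : ℕ, 1 ≤ Q → 1 ≤ d → 1 ≤ d' →
    Squarefree d → Squarefree d' → Nat.Coprime Q d → Nat.Coprime Q d' → Nat.Coprime d d' →
    ((Q * d * d' : ℕ) : ℝ) ≤ (N : ℝ) ^ (199 / 200 : ℝ) → ∀ S S' : Finset (ℤ × ℕ), S.card = k →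
    S'.card = k → (∀ p : ℕ, p.Prime → p ∣ d → gp S p) → (∀ p : ℕ, p.Prime → p ∣ d' → gp S' p) →
    ∀ b : ℤ, |∑' n : ℤ, (if (Q : ℤ) ∣ n - b then Wt N n else 0) *
      (dk k d (Fp S n) * dk k d' (Fp S' n))| ≤ 4 * (kw k d * kw k d') / (N : ℝ) ^ 5

/-- **OFDK** (theorem
`OFDK (hTTCK : St_TTCK) (hPBK : St_PBK) (hRSK : St_RSK) (hGS : BX.St_GS) (hRB : BX.St_RB) : St_OFDK`;
copy and adapt `Pool/Agent/W372/PL/{OFD1,OFD2,OFD3,OFD}.lean`; `St_PBK` is proved in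
`W82/KT/PBK.lean`; compare `W358/KT/NCK.lean`, `W45/KT/TTK.lean` for the pairs with a common factor).
The off-diagonal terms.

Proof.  `η₀ = 1/1000`, `η = min (ε₁/8) (1/200)` or smaller.  Small `N` trivial (absorb in `C`).  Let
`N ≥ N₀`, `C₁ = (k+1)^(2/ε₁) ≥ kw k d` for the moduli, `F = Fp S`, `F' = Fp S'`, `Θ = Ev th D`,
`G(n) = Wt(n) ν(n) Θ(F(n)) Θ'(F'(n)) ≥ 0`.  Expand `ν`, `Θ`, `Θ'`:
`G(n) = Wt(n) ∑ λ_{q₁} λ_{q₂} θ_e θ'_{e'} 1_{q | n} 1_{e | F(n)} 1_{e' | F'(n)}`; for given `q₁,q₂,e,e'`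
the product of the indicators depends only on `n` modulo `Q = lcm(q,e,e') ≤ N^(4η₀)`, so it is
`∑_{b ∈ R} 1_{Q | n - b}` for a set `R ⊆ [0, Q)`: at most `z² D² N^(4η₀) ≤ N^(8η₀)` terms, coefficients
`≤ (log N)²`.  `Q` is coprime to the `d` with `c d ≠ 0` or `c' d ≠ 0` (prime factors `≥ N^ε₁`).
`∑' G RK RK' = ∑_{(d,d')=1} c c' ∑' G dk dk' + ∑_{(d,d')>1} c c' ∑' G dk dk'`.
(1) Coprime pairs: TTCK for each term: total `≤ N^(8η₀) (log N)² X² 4 C₁² N^(-5) ≤ 1`.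
(2) Pairs with `(d,d') > 1`: `|dk d m dk d' m'| ≤ 1_{d|m} 1_{d'|m'} + C₁ 1_{d|m}/d' + C₁ 1_{d'|m'}/d +
C₁²/(dd')`.  For `n ≠ 0` with `F(n) ≠ 0 ≠ F'(n)`: `G(n) ≤ C N^(ε₁/8) (1+|n|/N)^(1/8) Wt(n)`
(divisor bound `τ(m) ≤ C_κ |m|^κ` with `κ` small depending on `k, M, ε₁`: `ν ≤ τ(n)²`,
`Θ ≤ (log N) τ(F(n))`, `|F(n)| ≤ N^((M+1)k) (1+|n|/N)^k`); and `G(n) ≤ (log N)² z² D² ≤ N^(5η₀)` always.
 (2a) such `n`: `∑_{(d,d')>1} 1_{d | F(n)} 1_{d' | F'(n)}` vanishes unless a prime `l ≥ N^ε₁` divides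
 `F(n)`, `F'(n)`, hence `L(n)`, `L'(n)` and `a b' - a' b ≠ 0` for some `L ∈ S`, `L' ∈ S'` (at most
 `C(k,M)/ε₁` triples `(L, L', l)`, and for each the `n` lie in one class modulo `l`: `l ∤ b`), and it is
 `≤ C (1+|n|/N)^(1/2)` (PBK: number of rough divisors); contribution
 `≤ C N^(ε₁/8) ∑_{(L,L',l)} ∑_{l | n - n_l} Wt(n) (1+|n|/N) ≤ C N^(ε₁/8) (N^(1-ε₁) + 1)`.
 `∑_{(d,d')>1} 1_{d | F(n)}/d'`: for each of the `≤ C (1+|n|/N)^(1/4)` rough `d | F(n)`,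
 `∑_{d' : (d,d')>1} 1/d' ≤ ∑_{l | d} (1 + log N)/l ≤ C log N N^(-ε₁)`; similarly the third; for the
 fourth `∑_{(d,d')>1} 1/(dd') ≤ 4 (1 + log N)² N^(-ε₁)`, and `∑ G ≤ C N^(1 + ε₁/8)`.
 Total `≤ C N^(1 - ε₁/2)`.
 (2b) the at most `2k + 1` other `n` (`n = 0` or `F(n) = 0` or `F'(n) = 0`): `F(n) = F'(n) = 0` is
 impossible (NCK), so with `G ≤ N^(5η₀)` the sums are `≤ C N^(5η₀) X log N ≤ C N^(1-η)`: if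
 `F(n) = 0` then `1_{d | F(n)} = 1` for all `d`: at most `X` values `d`, and `≤ C` (rough divisors of
 `F'(n)`) values `d'` resp. `≤ 1 + log N` for `∑ 1/d'`.
(3) From `RK` to `rK`: the `n` with `F(n) = 0` or `F'(n) = 0`: `G |RK| |RK'| ≤ C N^(5η₀) C₁ X`. -/
def St_OFDK : Prop := ∀ k M : ℕ, 1 ≤ k → ∃ η₀ : ℝ, 0 < η₀ ∧ η₀ ≤ 1 / 40 ∧
    ∀ ε₁ : ℝ, 0 < ε₁ → ε₁ ≤ 1 → ∃ η C : ℝ, 0 < η ∧ 0 < C ∧
    ∀ (N z D X : ℕ), 2 ≤ N → (z : ℝ) ≤ (N : ℝ) ^ η₀ → (z : ℝ) < (N : ℝ) ^ ε₁ →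
    (D : ℝ) ≤ (N : ℝ) ^ η₀ → X = ⌊(N : ℝ) ^ (49 / 100 : ℝ)⌋₊ →
    ∀ lam : ℕ → ℝ, SWs z lam → ∀ S S' : Finset (ℤ × ℕ), SysK k M N S → SysK k M N S' →
    Disjoint S S' → ∀ P P' : Finset ℕ,
    (∀ p ∈ P, p.Prime ∧ (p : ℝ) < (N : ℝ) ^ ε₁ ∧ gp S p) →
    (∀ p ∈ P', p.Prime ∧ (p : ℝ) < (N : ℝ) ^ ε₁ ∧ gp S' p) →
    ∀ th th' : ℕ → ℝ, DW P D (Real.log N) th → DW P' D (Real.log N) th' →
    (∀ m : ℤ, 0 ≤ Ev th D m) → (∀ m : ℤ, 0 ≤ Ev th' D m) →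
    ∀ c c' : ℕ → ℝ, CofK ((N : ℝ) ^ (ε₁ / 2)) X S c → CofK ((N : ℝ) ^ (ε₁ / 2)) X S' c' →
    (∀ d, c d ≠ 0 → BlK N ε₁ S d) → (∀ d, c' d ≠ 0 → BlK N ε₁ S' d) →
    |∑' n : ℤ, Wt N n * BX.nuS lam z n * (Ev th D (Fp S n) * Ev th' D (Fp S' n)) *
      (rK k c X S n * rK k c' X S' n)| ≤ C * (N : ℝ) ^ (1 - η)

/-- **BXBK** (theorem
`BXBK (hFLWK : St_FLWK) (hCORK : St_CORK) (hPBXK : St_PBXK) (hOFDK : St_OFDK) (hVLBK : St_VLBK)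
(hWXS : St_WXS) (hGS : BX.St_GS) (hRT : BX.St_RT) : St_BXBK`; copy and adapt
`Pool/Agent/W500/PL/{BXB0,BXB}.lean`; the duality for an arbitrary index type and the passage from
`RK` to `DK` are in `Pool/Agent/W363/KT/{BLKa,BLK}.lean`).

Proof.  `η₀` from OFDK (at `k, M`); `c₁` from PBXK; `A = A₀ + 4 c₁ + 10`; `ε*` from FLWK at
`k, η₀, A`, and `ε* ≤ min (1/8) (2η₀)`; `B₀ = E + 2k + 10` (`E` from CORK).  Given `ε₁ ≤ ε*`,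
`ε = ε₁/2`, `B ≥ B₀`, `N ≥ N₀`: for `S ∈ 𝒜` put `P_S = PK N B ε₁ S`, `V_S = Vk k P_S ∈ [V, 2V]`,
`V = Vk k (P1 N B ε₁)` (VLBK), `y = (log N)^B`, `D = ⌊N^η₀⌋`, `th_S, dl_S` from FLWK
(`|hatk th| ≤ 2V_S`, `|hatk dl| ≤ e^(-A/ε₁) V_S`), `z = ⌊N^(ε₁/2)⌋ ≥ 2` (`≤ N^η₀`, `< N^ε₁`), `lam`
from WXS, `w = Wt N · nuS lam z`, `|LF| ≤ 8/(ε₁ log N)` (see BXB).  `V ≥ (log N)^(-k)` (VLBK), so the
errors `C (log N)² (N (log N)^(E-B) + 1)` of CORK are `≤ N V²/(log N)²`.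
For `S ∈ 𝒜` let `c_S(d)` be the sign of `DK k (f xx) N S d` on `T S`, `0` elsewhere (`CofK` with
`X = ⌊N^(49/100)⌋`, by `BlK`), `x_S(n) = xx P_S (Fp S n)`, `r_S = x_S · rK k c_S X S`,
`Y_S = ∑_{p ∈ (z, N] prime} f p r_S(p)`.
(G) `∑' w r_S² ≤ e^(2c₁/ε) ∑' Wt N (1+|n|/N)^(1/2) ν x_S ≤ 2 e^(4c₁/ε₁) ∑' Wt (2N) ν Ev th_S (Fp S n)`
(GS, `xx ≤ Ev th`), and CORK (second part) at `2N` (a system for `N` is one for `2N`, the weights `th_S`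
and `P_S` are the same) gives `≤ 2 e^(4c₁/ε₁) (2N |LF| 4V + error) =: G ≤ C(ε₁) V N/log N`.
(O) `S ≠ S'` (disjoint): `ΘΘ' - xx' = (Θ-x)Θ' + x(Θ'-x')` lies in `[0, ΔΘ' + ΘΔ']` (`Θ = Ev th_S (Fp S n)`,
`Δ = Ev dl_S (Fp S n)`, ...).  So `|∑' w r_S r_{S'}| ≤ |∑' w ΘΘ' rK rK'| + ∑' w (ΔΘ' + ΘΔ') |rK| |rK'|`.
The first is `≤ C N^(1-η)` (OFDK; `Θ ≥ xx ≥ 0`); the second is
`≤ 2 e^(4c₁/ε₁) ∑' Wt (2N) ν (ΔΘ' + ΘΔ') ≤ 2 e^(4c₁/ε₁) (2N |LF| 2 (4V)(2 e^(-A/ε₁) V) + error) ≤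
(C/ε₁) e^((4c₁ - A)/ε₁) V² N/log N` with an absolute `C`.
Duality: `∑_S Y_S² ≤ 25 (∑_{p} f²) (G + |𝒜| O)`, `∑_p f² ≤ 25 ∑' w ≤ C N/(ε₁ log N)`, and
`∑_{d ∈ T S} |DK| ≤ |Y_S| + E'`, `E' ≤ C (z + X + N^(1-ε/2)) ≤ C N^(1-η')` (see BLK (2)),
`(|Y| + E')² ≤ 2 Y² + 2 E'²`.  Total `≤ (N/log N)² (C V + (C/ε₁²) e^((4c₁ - A)/ε₁) V² |𝒜|)` with an
absolute `C` in the second term; `(C/ε₁²) e^((4c₁-A)/ε₁) ≤ e^(-A₀/ε₁)` for `ε₁ ≤ ε*` (shrink `ε*`). -/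
def St_BXBK : Prop := ∀ k M : ℕ, 1 ≤ k → 1 ≤ M → ∀ A₀ : ℝ, 0 < A₀ → ∃ (B₀ : ℕ) (εs : ℝ), 0 < εs ∧
    ∀ ε₁ : ℝ, 0 < ε₁ → ε₁ ≤ εs → ∀ B : ℕ, B₀ ≤ B → ∃ (C : ℝ) (N₀ : ℕ), 0 < C ∧
    ∀ N : ℕ, N₀ ≤ N → ∀ f : ℕ → ℝ, (∀ p, |f p| ≤ 1) → ∀ 𝒜 : Finset (Finset (ℤ × ℕ)),
    (∀ S ∈ 𝒜, SysK k M N S) → (∀ S ∈ 𝒜, ∀ S' ∈ 𝒜, S ≠ S' → Disjoint S S') →
    ∀ T : Finset (ℤ × ℕ) → Finset ℕ, (∀ S ∈ 𝒜, ∀ d ∈ T S, BlK N ε₁ S d) →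
    ∑ S ∈ 𝒜, (∑ d ∈ T S,
      |DK k (fun p => f p * xx (PK N B ε₁ S) (Fp S p)) N S d|) ^ 2 ≤
      (N / Real.log N) ^ 2 * (C * Vk k (P1 N B ε₁) +
        Real.exp (-(A₀ / ε₁)) * Vk k (P1 N B ε₁) ^ 2 * 𝒜.card)

/-- **BX0K** (theorem
`BX0K (hFLWK : St_FLWK) (hCORK : St_CORK) (hVLBK : St_VLBK) (hWXS : St_WXS) (hGS : BX.St_GS)
(hGW : BX.St_GW) : St_BX0K`; copy and adapt `Pool/Agent/W586/PL/BX0.lean`; duality for an arbitrary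
index type in `Pool/Agent/W363/KT/BLKa.lean`).  The first moment.

Proof.  `A = A₀ + 10`, `η₀ = 1/40`, `ε*` from FLWK; `B₀ = E + 2k + 10`.  Notation as in BXBK with
`z = ⌊N^(1/40)⌋` (`log z ≥ log N/50`, `0 ≤ LF ≤ 2/log z` up to `1/N`).  Duality with
`r_S(n) = x_S(n) - V_S`, `x_S(n) = xx P_S (Fp S n)`, `V_S = Vk k P_S ∈ [V, 2V]`.
(G) `∑' w r_S² ≤ ∑' w x_S + V_S² ∑' w ≤ ∑' w Ev th_S (Fp S n) + V_S² ∑' w ≤ C V N/log N` (CORK; GW).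
(O) `∑' w r_S r_{S'} = ∑' w x x' - V_{S'} ∑' w x - V_S ∑' w x' + V_S V_{S'} ∑' w`.  By CORK and
`0 ≤ ΘΘ' - xx' ≤ ΔΘ' + ΘΔ'`, `0 ≤ Θ - x ≤ Δ`: with `ρ = e^(-A/ε₁)`,
`∑' w xx' = N LF (V_S V_{S'} (1 + O(ρ))) + err`, `∑' w x = N LF V_S (1 + O(ρ)) + err`,
`∑' w = N LF + O(1)` (CORK, second part, with `th = 1_{e=1}`, `P = ∅`, `y = N²`), so
`|∑' w r_S r_{S'}| ≤ C ρ V² N/log N`.
The primes `p ≤ z` contribute at most `z` to each sum, `z² ≤ N^(1/20)`. -/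
def St_BX0K : Prop := ∀ k M : ℕ, 1 ≤ k → 1 ≤ M → ∀ A₀ : ℝ, 0 < A₀ → ∃ (B₀ : ℕ) (εs : ℝ), 0 < εs ∧
    ∀ ε₁ : ℝ, 0 < ε₁ → ε₁ ≤ εs → ∀ B : ℕ, B₀ ≤ B → ∃ (C : ℝ) (N₀ : ℕ), 0 < C ∧
    ∀ N : ℕ, N₀ ≤ N → ∀ f : ℕ → ℝ, (∀ p, |f p| ≤ 1) → ∀ 𝒜 : Finset (Finset (ℤ × ℕ)),
    (∀ S ∈ 𝒜, SysK k M N S) → (∀ S ∈ 𝒜, ∀ S' ∈ 𝒜, S ≠ S' → Disjoint S S') →
    ∑ S ∈ 𝒜, (∑ p ∈ (Icc 1 N).filter Nat.Prime,
        f p * (xx (PK N B ε₁ S) (Fp S p) - Vk k (PK N B ε₁ S))) ^ 2 ≤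
      (N / Real.log N) ^ 2 * (C * Vk k (P1 N B ε₁) +
        Real.exp (-(A₀ / ε₁)) * Vk k (P1 N B ε₁) ^ 2 * 𝒜.card)

open Classical in
/-- **BHU** (theorem `BHU : St_BHU`; this is `Pool/Agent/W762/KT/BHK.lean` with an explicit bound for
the coefficients).

Proof.  In the proof of BHK the coefficients are bounded by `J + 1`, `J = ⌈log₂(ζ/ε₁)⌉`, and
`J + 1 ≤ log₂(ζ/ε₁) + 2 ≤ 1/ε₁` for `ε₁ < ζ ≤ 1/10`. -/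
def St_BHU : Prop := ∀ k : ℕ, 1 ≤ k → ∃ ζ c : ℝ, 0 < ζ ∧ ζ ≤ 1 / 10 ∧ 0 < c ∧ ∀ ε₁ : ℝ, 0 < ε₁ →
    ε₁ < ζ → ∃ N₀ : ℕ, ∀ N : ℕ, N₀ ≤ N → ∀ P : Finset ℕ, P ⊆ pr N ε₁ ζ →
    ∃ th : ℕ → ℝ, (∀ e, |th e| ≤ 1 / ε₁) ∧
      (∀ e, th e ≠ 0 → Squarefree e ∧ (e : ℝ) ≤ (N : ℝ) ^ (49 / 100 : ℝ) ∧
        ∀ p : ℕ, p.Prime → p ∣ e → p ∈ P) ∧
      (∀ m : ℤ, ∑ e ∈ Icc 1 ⌊(N : ℝ) ^ (49 / 100 : ℝ)⌋₊, th e * (if (e : ℤ) ∣ m then 1 else 0) ≤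
        xx P m) ∧
      c * ε₁ ^ k ≤ ∑ e ∈ Icc 1 ⌊(N : ℝ) ^ (49 / 100 : ℝ)⌋₊, th e * (kw k e / (Nat.totient e : ℝ))

open Classical in
/-- **UBSK** (theorem `UBSK (hVLBK : St_VLBK) (hRSK : St_RSK) : St_UBSK`; copy and adapt
`Pool/Agent/W366/PL/UBS.lean`; the sieve is `Pool.Agent.H373R2.T7.Fund`: `sys_fund`).
An upper bound sieve of dimension `k + 1`.

Proof.  `m ∣ a + b p`, `(b, m) = 1`: `p` lies in one class `r` modulo `m`, coprime to `m` as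
`(a, m) = 1`; `p = r + m n`, `0 ≤ n ≤ N/m`; translate to `[1, X]`, `X = ⌊N/m⌋ + 2 ≥ N^(19/20)`.
Conditions modulo a prime `l ≤ Y = N^(1/(2K))` (`K` from `sys_fund` with `c = k + 1`, `ε = 1`; `x = X`,
`Y^K ≤ N^(1/2) ≤ X`): `l ∤ p` (or `p ≤ Y`, at most `Y` primes) and, if `l ∈ PK N B ε₁ S`,
`l ∤ Fp S p`.  For `l ∤ m`, `l ∉ PK`: one class of `n`; `l ∤ m`, `l ∈ PK`: the `k` distinct roots of
`Fp S` modulo `l` (RSK with `d = l`, or directly), and the class `p ≡ 0`, which is none of them if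
`l ∤ ∏ a`: `k + 1` classes; if `l ∣ ∏ a`: at least `k` classes; `l | m`: none.  So the count is
`≤ 2 X ∏_{l ≤ Y} (1 - ν(l)/l) + √X + Y`, and, as `1 - (k+1)/l ≤ (1 - 1/l)(1 - k/l)`, the product is at
most `∏_{l ≤ Y} (1 - 1/l) · (m/φ(m)) · ∏_{l ∈ PK, l ≤ Y} (1 - k/l) ·
∏_{l ∈ PK, l | m ∏a} ((1 - k/l)(1 - 1/l))^(-1)`, the last factor is `≤ 2` (at most `C log N` primes
`l ≥ (log N)^B`, `B ≥ 2`), `∏_{l ≤ Y} (1 - 1/l) ≤ C/log N`, and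
`∏_{l ∈ PK, l ≤ Y} (1 - k/l) ≤ 2 Vk k (P1 N B ε₁') ≤ C Vk k (P1 N B ε₁)`, `ε₁' = min ε₁ (1/(2K))`
(VLBK for `ε₁` and `ε₁'`; the primes of `P1 N B ε₁'` are `≤ Y`). -/
def St_UBSK : Prop := ∀ k M B : ℕ, 1 ≤ k → 2 ≤ B → ∀ ε₁ : ℝ, 0 < ε₁ → ε₁ ≤ 1 →
    ∃ (C : ℝ) (N₀ : ℕ), 0 < C ∧ ∀ N : ℕ, N₀ ≤ N → ∀ S : Finset (ℤ × ℕ), SysK k M N S →
    ∀ L ∈ S, ∀ m : ℕ, 1 ≤ m → (m : ℝ) ≤ (N : ℝ) ^ (1 / 20 : ℝ) → Int.gcd L.1 m = 1 →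
    Nat.Coprime L.2 m →
    (((Icc 1 N).filter (fun p : ℕ => p.Prime ∧ (m : ℤ) ∣ lf L p ∧
      xx (PK N B ε₁ S) (Fp S p) = 1)).card : ℝ) ≤
      C * (N / (Nat.totient m * Real.log N)) * Vk k (P1 N B ε₁)

open Classical in
/-- **SMOK** (theorem `SMOK (hUBSK : St_UBSK) (hVLBK : St_VLBK) : St_SMOK`; copy and adapt
`Pool/Agent/W214/PL/SMO.lean`).  Smooth parts.

Proof.  `y = (log N)^B`, `L = (a, b)`, `g(p)` the `y`-smooth part of `|L(p)| ≠ 0`; the condition says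
`g(p) > y^u`.  Note: a prime `l | L(p)` does not divide `b` (else `l | a`).
(1) `g(p) > N^(1/20)`: then `g(p)` has a divisor `m ∈ (N^(1/20), N^(1/20) y]`, `y`-smooth, `(m, b) = 1`,
and for each `m` the `p` lie in one class modulo `m`: at most `N/m + 1 ≤ 4N/m` integers `p ≤ N`.  The sum
over `m` as in SMO: `≤ N^(1 - 1/(50 B)) ≤ e^(-u) V N/log N/2` for `N ≥ N₀(B, u, k)`.
(2) `y^u < g(p) ≤ N^(1/20)`, `gcd(a, g(p)) = 1`: with `α = 1/log y`, `1 ≤ e^(-u) g^α`, and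
`g^α = ∑_{m | g} h(m)` as in SMO.  So the number is at most
`e^(-u) ∑_{m ≤ N^(1/20), y-smooth, gcd(ab,m)=1} h(m) #{p : m | L(p), xx = 1} ≤
e^(-u) C V (N/log N) ∑_m h(m)/φ(m)` (UBSK), and the last sum is `≤ C` (see SMO).
(3) `gcd(a, g(p)) > 1`: a prime `l < y` divides `a` and `a + b p`, so `l | b p`, `l ∤ b`, `p = l`: at
most `y` values. -/
def St_SMOK : Prop := ∀ k M B : ℕ, 1 ≤ k → 2 ≤ B → ∀ ε₁ : ℝ, 0 < ε₁ → ε₁ ≤ 1 → ∃ C : ℝ, 0 < C ∧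
    ∀ u : ℕ, 1 ≤ u → ∃ N₀ : ℕ, ∀ N : ℕ, N₀ ≤ N → ∀ S : Finset (ℤ × ℕ), SysK k M N S → ∀ L ∈ S,
    (((Icc 1 N).filter (fun p : ℕ => p.Prime ∧ lf L p ≠ 0 ∧
      xx (PK N B ε₁ S) (Fp S p) = 1 ∧
      ∃ m : ℕ, m ∣ (lf L p).natAbs ∧ (∀ l : ℕ, l.Prime → l ∣ m → (l : ℝ) < Real.log N ^ B) ∧
      Real.log N ^ (B * u) < m)).card : ℝ) ≤
      C * Real.exp (-(u : ℝ)) * Vk k (P1 N B ε₁) * (N / Real.log N)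

end Pool.Agent.W23.KS
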