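import Pool.Agent.W23.KS.Fin4
import Pool.Agent.W347.KS.FLWK
import Pool.Agent.W216.KS.VLBK
import Pool.Agent.W216.KS.PBXK
import Pool.Agent.W410.KS.CORK
import Pool.Agent.W45.KS.TTCK
import Pool.Agent.W108.KS.OFDK
import Pool.Agent.W214.KS.BXBK
import Pool.Agent.W976.KS.BX0K
import Pool.Agent.W597.KS.BHU
import Pool.Agent.W946.KS.UBSK
import Pool.Agent.W216.KS.SMOK
import Pool.Agent.W23.KT.All

/-!
KS project (helper23): assembly.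
-/

namespace Pool.Agent.W23.KS

open Finset
open Pool.Agent.H442R2
open Pool.Agent.W23.DC
open Pool.Agent.W23.SG
open Pool.Agent.W23.KT

theorem RSK_thm : St_RSK := W721.KT.RSK
theorem FLWK_thm : St_FLWK := W347.KS.FLWK
theorem VLBK_thm : St_VLBK := W216.KS.VLBK
theorem PBXK_thm : St_PBXK := W216.KS.PBXK
theorem CORK_thm : St_CORK := W410.KS.CORK RSK_thm BX.GS
theorem TTCK_thm : St_TTCK := W45.KS.TTCK W488.SG.PA RSK_thm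
theorem OFDK_thm : St_OFDK := W108.KS.OFDK TTCK_thm PBK_thm RSK_thm BX.GS BX.RB
theorem BXBK_thm : St_BXBK := W214.KS.BXBK FLWK_thm CORK_thm PBXK_thm OFDK_thm VLBK_thm
  W586.DC.WXS BX.GS BX.RT
theorem BX0K_thm : St_BX0K := W976.KS.BX0K FLWK_thm CORK_thm VLBK_thm W586.DC.WXS BX.GS BX.GW_thm
theorem BHU_thm : St_BHU := W597.KS.BHU
theorem UBSK_thm : St_UBSK := W946.KS.UBSK VLBK_thm RSK_thm
theorem SMOK_thm : St_SMOK := W216.KS.SMOK UBSK_thm VLBK_thm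

theorem main_thm (k M : ℕ) (hk : 1 ≤ k) (hM : 1 ≤ M) :
    ∃ r : ℕ, 1 ≤ r ∧ ∀ δ : ℝ, 0 < δ → ∃ (c C : ℝ) (t : ℕ), 0 < c ∧ ∀ X : ℕ, 3 ≤ X →
      ∀ A : Finset ℕ, (∀ p ∈ A, p.Prime ∧ p ≤ X) → δ * (X / Real.log X) ≤ A.card →
      ∃ H : Finset (ℤ × ℕ), (H.card : ℝ) ≤ C * (Real.log X / Real.log (Real.log X)) ^ k ∧
        ∀ S, SysK k M X S → Disjoint S H →
          c * (Real.log (Real.log X) / Real.log X) ^ k * A.card ≤ ((G3 A X t r S).card : ℝ) :=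
  mainX BHU_thm BXBK_thm BX0K_thm VLBK_thm UBSK_thm SMOK_thm k M hk hM

theorem sharp_thm (k M t r : ℕ) (hk : 1 ≤ k) (hr : 1 ≤ r) (η : ℝ) (hη : 0 < η) :
    ∃ (c' : ℝ) (X₀ : ℕ), 0 < c' ∧ ∀ X : ℕ, X₀ ≤ X → ∀ 𝒮 : Finset (Finset (ℤ × ℕ)),
      (∀ S ∈ 𝒮, SysK k M X S) →
      (𝒮.card : ℝ) ≤ c' * (Real.log X / Real.log (Real.log X)) ^ k →
      ∃ A : Finset ℕ, (∀ p ∈ A, p.Prime ∧ p ≤ X) ∧
        (((Icc 1 X).filter Nat.Prime).card : ℝ) - A.card ≤ η * (X / Real.log X) ∧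
        ∀ S ∈ 𝒮, G3 A X t r S = ∅ :=
  sharpK UBSK_thm VLBK_thm k M t r hk hr η hη

end Pool.Agent.W23.KS
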