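import Pool.Agent.W23.KS.Fin2

/-!
KS project (helper23): the main theorem for large `N`.
-/

namespace Pool.Agent.W23.KS

open Finset Filter
open Pool.Agent.H442R2
open Pool.Agent.H442R2.KF
open Pool.Agent.W23.DC
open Pool.Agent.W23.SG
open Pool.Agent.W23.PL
open Pool.Agent.W23.KT

open Classical in
/-- the primes at which the form has a large smooth divisor -/
noncomputable def SmL (N B u : ℕ) (ε₁ : ℝ) (S : Finset (ℤ × ℕ)) (L : ℤ × ℕ) : Finset ℕ :=
  (Icc 1 N).filter (fun p : ℕ => p.Prime ∧ lf L p ≠ 0 ∧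
      xx (PK N B ε₁ S) (Fp S p) = 1 ∧
      ∃ m : ℕ, m ∣ (lf L p).natAbs ∧ (∀ l : ℕ, l.Prime → l ∣ m → (l : ℝ) < Real.log N ^ B) ∧
      Real.log N ^ (B * u) < m)

theorem xx_ndvd {P : Finset ℕ} {m : ℤ} (h : xx P m = 1) : ∀ l ∈ P, ¬ (l : ℤ) ∣ m := by
  unfold xx at h
  by_contra hcon
  rw [if_neg hcon] at h
  exact zero_ne_one h

theorem mem_PK {N B : ℕ} {ε₁ : ℝ} {S : Finset (ℤ × ℕ)} {p : ℕ} : p ∈ PK N B ε₁ S ↔
    p ∈ P1 N B ε₁ ∧ gp S p := by
  classical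
  unfold PK
  rw [mem_filter]

theorem biUnion_card_le {k : ℕ} {S : Finset (ℤ × ℕ)} (hS : S.card = k)
    (F : ℤ × ℕ → Finset ℕ) {y : ℝ} (h : ∀ L ∈ S, ((F L).card : ℝ) ≤ y) :
    ((S.biUnion F).card : ℝ) ≤ k * y := by
  have h1 : (S.biUnion F).card ≤ ∑ L ∈ S, (F L).card := Finset.card_biUnion_le
  calc ((S.biUnion F).card : ℝ) ≤ ∑ L ∈ S, ((F L).card : ℝ) := by exact_mod_cast h1
    _ ≤ ∑ _L ∈ S, y := Finset.sum_le_sum h
    _ = _ := by rw [Finset.sum_const, nsmul_eq_mul, hS]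

theorem exp_choice (k : ℕ) {w δ' a : ℝ} (hw : 0 < w) (hδ : 0 < δ') (ha : 0 < a) :
    ∃ e : ℝ, 0 < e ∧ e ≤ a ∧ e ≤ 1 ∧ Real.exp (-(1 / e)) ≤ w * e ^ (2 * k + 2) ∧
      Real.exp (-(1 / e)) ≤ δ' := by
  set n := 2 * k + 3 with hn
  have hn0 : (0 : ℝ) < (Nat.factorial n : ℕ) := by exact_mod_cast Nat.factorial_pos n
  obtain ⟨e, he, h1, h2, h3, h4⟩ : ∃ e : ℝ, 0 < e ∧ e ≤ a ∧ e ≤ 1 ∧
      e ≤ w / (Nat.factorial n : ℕ) ∧ e ≤ δ' / (Nat.factorial n : ℕ) := by
    refine ⟨min (min a 1) (min (w / (Nat.factorial n : ℕ)) (δ' / (Nat.factorial n : ℕ))), ?_, ?_,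
      ?_, ?_, ?_⟩
    · exact lt_min (lt_min ha one_pos) (lt_min (by positivity) (by positivity))
    · exact (min_le_left _ _).trans (min_le_left _ _)
    · exact (min_le_left _ _).trans (min_le_right _ _)
    · exact (min_le_right _ _).trans (min_le_left _ _)
    · exact (min_le_right _ _).trans (min_le_right _ _)
  rw [le_div_iff₀ hn0] at h3 h4
  have hexp : Real.exp (-(1 / e)) ≤ (Nat.factorial n : ℕ) * e ^ n := by
    have h6 := Real.pow_div_factorial_le_exp (1 / e) (by positivity) n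
    rw [Real.exp_neg]
    rw [inv_le_comm₀ (Real.exp_pos _) (by positivity)]
    refine le_trans (le_of_eq ?_) h6
    rw [div_pow, one_pow]
    field_simp
  refine ⟨e, he, h1, h2, hexp.trans ?_, hexp.trans ?_⟩
  · have e1 : ((Nat.factorial n : ℕ) : ℝ) * e ^ n =
        e * (Nat.factorial n : ℕ) * e ^ (2 * k + 2) := by
      rw [hn, pow_succ e (2 * k + 2)]
      ring
    rw [e1]
    gcongr
  · have e1 : ((Nat.factorial n : ℕ) : ℝ) * e ^ n =
        e * (Nat.factorial n : ℕ) * e ^ (2 * k + 2) := by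
      rw [hn, pow_succ e (2 * k + 2)]
      ring
    rw [e1]
    calc e * (Nat.factorial n : ℕ) * e ^ (2 * k + 2) ≤ e * (Nat.factorial n : ℕ) * 1 := by
          gcongr
          exact pow_le_one₀ he.le h2
      _ ≤ _ := by rw [mul_one]; exact h4

open Classical in
theorem mainK (hBHU : St_BHU) (hBXBK : St_BXBK) (hBX0K : St_BX0K) (hVLBK : St_VLBK)
    (hUBSK : St_UBSK) (hSMOK : St_SMOK) (k M : ℕ) (hk : 1 ≤ k) (hM : 1 ≤ M) :
    ∃ r : ℕ, 1 ≤ r ∧ ∀ δ : ℝ, 0 < δ → ∃ (c C : ℝ) (t N₀ : ℕ), 0 < c ∧ 0 < C ∧ ∀ N : ℕ, N₀ ≤ N →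
      ∀ A : Finset ℕ, (∀ p ∈ A, p.Prime ∧ p ≤ N) → δ * (N / Real.log N) ≤ A.card →
      ∃ H : Finset (ℤ × ℕ), (H.card : ℝ) ≤ C * (Real.log N / Real.log (Real.log N)) ^ k ∧
        ∀ S, SysK k M N S → Disjoint S H →
          c * (Real.log (Real.log N) / Real.log N) ^ k * A.card ≤ ((G3 A N t r S).card : ℝ) := by
  obtain ⟨ζ, c₀, hζ, hζ1, hc₀, H1⟩ := sieveU hBHU k hk
  set r : ℕ := ⌈((M : ℝ) + 2) / ζ⌉₊ with hr
  have hr1 : ((M : ℝ) + 2) / ζ ≤ r := Nat.le_ceil _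
  have hr0 : 1 ≤ r := by
    rw [hr]
    exact Nat.ceil_pos.2 (by positivity)
  refine ⟨r, hr0, fun δ hδ => ?_⟩
  obtain ⟨c₂, hc₂, HV⟩ := Vk_ge hVLBK k hk
  obtain ⟨B₁, e1, he1, HF⟩ := hBXBK k M hk hM 1 one_pos
  obtain ⟨B₂, e2, he2, H0⟩ := hBX0K k M hk hM 1 one_pos
  obtain ⟨B, hBB₁, hBB₂, hB2⟩ : ∃ B : ℕ, B₁ ≤ B ∧ B₂ ≤ B ∧ 2 ≤ B :=
    ⟨max (max B₁ B₂) 2, (le_max_left _ _).trans (le_max_left _ _),
      (le_max_right _ _).trans (le_max_left _ _), le_max_right _ _⟩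
  -- the choice of `ε₁`
  obtain ⟨ε₁, hε₁, hε₁a, hε₁1, hε₁b, hε₁c⟩ := exp_choice k
    (show (0 : ℝ) < (c₀ * δ / 4) ^ 2 / 2 by positivity) (show (0 : ℝ) < δ ^ 2 / 8 by positivity)
    (show (0 : ℝ) < min (ζ / 2) (min e1 e2) from lt_min (by positivity) (lt_min he1 he2))
  have hε₁ζ : ε₁ < ζ := by
    have := hε₁a.trans (min_le_left _ _)
    linarith
  have hε₁e1 : ε₁ ≤ e1 := hε₁a.trans ((min_le_right _ _).trans (min_le_left _ _))
  have hε₁e2 : ε₁ ≤ e2 := hε₁a.trans ((min_le_right _ _).trans (min_le_right _ _))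
  obtain ⟨N₁, hN₁⟩ := H1 ε₁ hε₁ hε₁ζ
  obtain ⟨C₁, N₂, hC₁, hN₂⟩ := HF ε₁ hε₁ hε₁e1 B hBB₁
  obtain ⟨C₃, N₃, hC₃, hN₃⟩ := H0 ε₁ hε₁ hε₁e2 B hBB₂
  obtain ⟨N₄, hN₄3, hN₄⟩ := HV M B hB2 ε₁ hε₁ hε₁1
  obtain ⟨C₅, hC₅, HS⟩ := hSMOK k M B hk hB2 ε₁ hε₁ hε₁1
  have hk0 : (0 : ℝ) < k := by exact_mod_cast hk
  set σ : ℝ := c₀ * ε₁ ^ k * δ / 32 with hσ
  have hσ0 : 0 < σ := by positivity
  obtain ⟨u, hu1, hu⟩ : ∃ u : ℕ, 1 ≤ u ∧ k * (C₅ * Real.exp (-(u : ℝ))) ≤ σ := by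
    have hlim : Tendsto (fun u : ℕ => k * (C₅ * Real.exp (-(u : ℝ)))) atTop
        (nhds (k * (C₅ * 0))) :=
      ((Real.tendsto_exp_neg_atTop_nhds_zero.comp tendsto_natCast_atTop_atTop).const_mul
        C₅).const_mul _
    rw [mul_zero, mul_zero] at hlim
    obtain ⟨u, hu⟩ := Filter.eventually_atTop.1 (hlim.eventually_le_const hσ0)
    exact ⟨max u 1, le_max_right _ _, hu _ (le_max_left _ _)⟩
  obtain ⟨N₅, hN₅⟩ := HS u hu1
  obtain ⟨N₆, hN₆⟩ := badP hUBSK hVLBK k M B hk hB2 hε₁ hε₁1 (show (0 : ℝ) < σ / k by positivity)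
  obtain ⟨N₇, hN₇⟩ := logpow_small (B * u + (k + 1)) (show (0 : ℝ) < 1 by norm_num)
    (show (0 : ℝ) < σ / (3 * k) by positivity)
  set κ : ℝ := c₀ * δ * ε₁ ^ (k + 1) / 4 with hκ
  have hκ0 : 0 < κ := by positivity
  have hκ2 : κ ^ 2 / 2 = (c₀ * δ / 4) ^ 2 / 2 * ε₁ ^ (2 * k + 2) := by
    rw [hκ, show 2 * k + 2 = (k + 1) * 2 by ring, pow_mul]
    ring
  rw [← hκ2] at hε₁b
  refine ⟨c₀ * ε₁ ^ k * c₂ / 8, k * (8 * C₃ / δ ^ 2 + 2 * C₁ / κ ^ 2) / c₂, B * u,
    max (max (max N₁ N₂) (max N₃ N₄)) (max (max N₅ N₆) N₇), by positivity, by positivity, ?_⟩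
  intro N hN A hA hAc
  have hNN₁ : N₁ ≤ N :=
    (((le_max_left _ _).trans (le_max_left _ _)).trans (le_max_left _ _)).trans hN
  have hNN₂ : N₂ ≤ N :=
    (((le_max_right _ _).trans (le_max_left _ _)).trans (le_max_left _ _)).trans hN
  have hNN₃ : N₃ ≤ N :=
    (((le_max_left _ _).trans (le_max_right _ _)).trans (le_max_left _ _)).trans hN
  have hNN₄ : N₄ ≤ N :=
    (((le_max_right _ _).trans (le_max_right _ _)).trans (le_max_left _ _)).trans hN
  have hNN₅ : N₅ ≤ N :=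
    (((le_max_left _ _).trans (le_max_left _ _)).trans (le_max_right _ _)).trans hN
  have hNN₆ : N₆ ≤ N :=
    (((le_max_right _ _).trans (le_max_left _ _)).trans (le_max_right _ _)).trans hN
  have hNN₇ : N₇ ≤ N := ((le_max_right _ _).trans (le_max_right _ _)).trans hN
  have hN3 : 3 ≤ N := hN₄3.trans hNN₄
  have hN2 : 2 ≤ N := by omega
  have hN1 : (1 : ℝ) < N := by exact_mod_cast (by omega : 1 < N)
  have hN0 : (0 : ℝ) < N := by linarith
  have hL : 0 < Real.log N := Real.log_pos hN1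
  have hL1 : 1 < Real.log N := by
    rw [Real.lt_log_iff_exp_lt hN0]
    have h3 : (3 : ℝ) ≤ N := by exact_mod_cast hN3
    exact Real.exp_one_lt_three.trans_le h3
  have hLL : 0 < Real.log (Real.log N) := Real.log_pos hL1
  set V := Vk k (P1 N B ε₁) with hV
  obtain ⟨hV1, hV2, hV3⟩ := hN₄ N hNN₄
  have hV0 : 0 < V := lt_of_lt_of_le (by positivity) hV1
  set D : ℝ := N / Real.log N with hD
  have hD0 : 0 < D := by positivity
  -- the two kinds of bad systems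
  set R : Finset (ℤ × ℕ) → ℝ := fun S => ∑ d ∈ TB N ε₁ S,
    |DK k (fun p => fA A p * xx (PK N B ε₁ S) (Fp S p)) N S d| with hR
  set T : Finset (ℤ × ℕ) → ℝ := fun S => ((AS A N B ε₁ S).card : ℝ) -
    Vk k (PK N B ε₁ S) * A.card with hT
  set 𝓔 : Finset (Finset (ℤ × ℕ)) := (box M N).powerset.filter (fun S => SysK k M N S ∧
    (V * (A.card : ℝ) / 2 ≤ |T S| ∨ κ * V * D ≤ R S)) with h𝓔
  obtain ⟨𝒯, h𝒯, hdis, hmax⟩ := maxfam 𝓔 (fun S hS => by
    rw [h𝓔, mem_filter] at hS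
    rw [← Finset.card_pos, hS.2.1.sys.card]
    omega)
  have hT1 : ∀ S ∈ 𝒯, SysK k M N S := fun S hS => (mem_filter.1 (h𝒯 hS)).2.1
  set 𝒯1 := 𝒯.filter (fun S => V * (A.card : ℝ) / 2 ≤ |T S|) with h𝒯1
  set 𝒯2 := 𝒯.filter (fun S => κ * V * D ≤ R S) with h𝒯2
  have hcov : 𝒯 ⊆ 𝒯1 ∪ 𝒯2 := by
    intro S hS
    rcases (mem_filter.1 (h𝒯 hS)).2.2 with h | h
    · exact mem_union_left _ (mem_filter.2 ⟨hS, h⟩)
    · exact mem_union_right _ (mem_filter.2 ⟨hS, h⟩)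
  have hb1 : (𝒯1.card : ℝ) * V ≤ 8 * C₃ / δ ^ 2 := by
    have h1 := hN₃ N hNN₃ (fA A) (fA_le A) 𝒯1 (fun S hS => hT1 S (mem_filter.1 hS).1)
      (fun S hS S' hS' => hdis S (mem_filter.1 hS).1 S' (mem_filter.1 hS').1)
    have h2 : (𝒯1.card : ℝ) * (V * (δ * D) / 2) ^ 2 ≤
        ∑ S ∈ 𝒯1, (∑ p ∈ (Icc 1 N).filter Nat.Prime,
          fA A p * (xx (PK N B ε₁ S) (Fp S p) - Vk k (PK N B ε₁ S))) ^ 2 := by
      rw [← nsmul_eq_mul, ← Finset.sum_const]
      apply Finset.sum_le_sum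
      intro S hS
      rw [← card_AS hA B k ε₁ S, ← sq_abs (_ - _)]
      refine pow_le_pow_left₀ (by positivity) (le_trans ?_ (mem_filter.1 hS).2) 2
      gcongr
    have h3 := h2.trans h1
    have h4 : (𝒯1.card : ℝ) * (V * (δ * D) / 2) ^ 2 =
        D ^ 2 * V * (𝒯1.card * V * (δ ^ 2 / 4)) := by
      ring
    have h5 : (N / Real.log N) ^ 2 * (C₃ * Vk k (P1 N B ε₁) +
        Real.exp (-(1 / ε₁)) * Vk k (P1 N B ε₁) ^ 2 * 𝒯1.card) =
        D ^ 2 * V * (C₃ + Real.exp (-(1 / ε₁)) * (𝒯1.card * V)) := by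
      rw [← hV, ← hD]
      ring
    rw [h4, h5] at h3
    have h6 := le_of_mul_le_mul_left h3 (by positivity)
    have h7 : 0 ≤ (𝒯1.card : ℝ) * V := by positivity
    rw [le_div_iff₀ (by positivity)]
    nlinarith
  have hb2 : (𝒯2.card : ℝ) * V ≤ 2 * C₁ / κ ^ 2 := by
    have h1 := hN₂ N hNN₂ (fA A) (fA_le A) 𝒯2 (fun S hS => hT1 S (mem_filter.1 hS).1)
      (fun S hS S' hS' => hdis S (mem_filter.1 hS).1 S' (mem_filter.1 hS').1)
      (TB N ε₁) (fun S _ d hd => by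
        unfold TB at hd
        exact (mem_filter.1 hd).2)
    have h2 : (𝒯2.card : ℝ) * (κ * V * D) ^ 2 ≤ ∑ S ∈ 𝒯2, (R S) ^ 2 := by
      rw [← nsmul_eq_mul, ← Finset.sum_const]
      apply Finset.sum_le_sum
      intro S hS
      exact pow_le_pow_left₀ (by positivity) (mem_filter.1 hS).2 2
    have h3 := h2.trans h1
    have h4 : (𝒯2.card : ℝ) * (κ * V * D) ^ 2 = D ^ 2 * V * (𝒯2.card * V * κ ^ 2) := by
      ring
    have h5 : (N / Real.log N) ^ 2 * (C₁ * Vk k (P1 N B ε₁) +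
        Real.exp (-(1 / ε₁)) * Vk k (P1 N B ε₁) ^ 2 * 𝒯2.card) =
        D ^ 2 * V * (C₁ + Real.exp (-(1 / ε₁)) * (𝒯2.card * V)) := by
      rw [← hV, ← hD]
      ring
    rw [h4, h5] at h3
    have h6 := le_of_mul_le_mul_left h3 (by positivity)
    have h7 : 0 ≤ (𝒯2.card : ℝ) * V := by positivity
    rw [le_div_iff₀ (by positivity)]
    nlinarith
  refine ⟨𝒯.biUnion id, ?_, ?_⟩
  · -- the number of exceptional forms
    have h1 : (𝒯.card : ℝ) ≤ 𝒯1.card + 𝒯2.card := by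
      exact_mod_cast (Finset.card_le_card hcov).trans (Finset.card_union_le _ _)
    have h2 : (𝒯.card : ℝ) * V ≤ 8 * C₃ / δ ^ 2 + 2 * C₁ / κ ^ 2 := by nlinarith
    have h10 : ((𝒯.biUnion id).card : ℝ) ≤ 𝒯.card * k := by
      have h11 : (𝒯.biUnion id).card ≤ 𝒯.card * k :=
        Finset.card_biUnion_le_card_mul _ _ _ (fun S hS => (hT1 S hS).sys.card.le)
      exact_mod_cast h11
    have h3 : (𝒯.card : ℝ) * (c₂ * (Real.log (Real.log N) / Real.log N) ^ k) ≤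
        8 * C₃ / δ ^ 2 + 2 * C₁ / κ ^ 2 :=
      (mul_le_mul_of_nonneg_left hV1 (Nat.cast_nonneg _)).trans h2
    have h4 : (𝒯.card : ℝ) = 𝒯.card * (c₂ * (Real.log (Real.log N) / Real.log N) ^ k) *
        (1 / c₂ * (Real.log N / Real.log (Real.log N)) ^ k) := by
      rw [div_pow, div_pow]
      field_simp
    calc ((𝒯.biUnion id).card : ℝ) ≤ 𝒯.card * k := h10
      _ = 𝒯.card * (c₂ * (Real.log (Real.log N) / Real.log N) ^ k) *
        (1 / c₂ * (Real.log N / Real.log (Real.log N)) ^ k) * k := by rw [← h4]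
      _ ≤ (8 * C₃ / δ ^ 2 + 2 * C₁ / κ ^ 2) *
        (1 / c₂ * (Real.log N / Real.log (Real.log N)) ^ k) * k := by gcongr
      _ = _ := by ring
  · intro S hS hSH
    have hnot : ¬ (V * (A.card : ℝ) / 2 ≤ |T S| ∨ κ * V * D ≤ R S) := by
      intro hcon
      apply hmax S _ hSH
      rw [h𝓔, mem_filter, mem_powerset]
      exact ⟨fun L hL => mem_box (hS.sys.fo L hL), hS, hcon⟩
    rw [not_or, not_le, not_le] at hnot
    obtain ⟨n1, n2⟩ := hnot
    obtain ⟨hVS1, -⟩ := hV3 S hS.sys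
    set A' := AS A N B ε₁ S with hA'
    have hA'A : ∀ p ∈ A', p.Prime ∧ p ≤ N := fun p hp => hA p (mem_filter.1 hp).1
    have hlow := hN₁ N hNN₁ A' hA'A S
    have hfA : fA A' = fun p : ℕ => fA A p * xx (PK N B ε₁ S) (Fp S p) := fA_AS A N B ε₁ S
    rw [hfA] at hlow
    have hlow' : c₀ * ε₁ ^ k * A'.card - 1 / ε₁ * R S ≤
        ∑ p ∈ A', xx (PS N ε₁ ζ S) (Fp S p) := hlow
    have hA'c : V * (A.card : ℝ) / 2 ≤ A'.card := by
      have h1 := (abs_lt.1 n1).1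
      simp only [hT] at h1
      have h2 : V * (A.card : ℝ) ≤ Vk k (PK N B ε₁ S) * A.card := by gcongr
      linarith
    -- the exceptional primes
    set Z3 := S.biUnion (fun L => A.filter (fun p : ℕ =>
      ((lf L p).natAbs : ℝ) ≤ Real.log N ^ (B * u))) with hZ3
    have hsum : ∑ p ∈ A', xx (PS N ε₁ ζ S) (Fp S p) ≤
        ((G3 A N (B * u) r S).card : ℝ) + (S.biUnion (fun L => Bd N B ε₁ S L)).card +
          (S.biUnion (fun L => SmL N B u ε₁ S L)).card + Z3.card := by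
      have h1 : ∑ p ∈ A', xx (PS N ε₁ ζ S) (Fp S p) =
          ((A'.filter (fun p : ℕ => ∀ l ∈ PS N ε₁ ζ S, ¬ (l : ℤ) ∣ Fp S p)).card : ℝ) := by
        rw [Finset.card_filter]
        push_cast
        apply Finset.sum_congr rfl
        intro p _
        unfold xx
        congr 1
      rw [h1]
      have h2 : A'.filter (fun p : ℕ => ∀ l ∈ PS N ε₁ ζ S, ¬ (l : ℤ) ∣ Fp S p) ⊆
          ((G3 A N (B * u) r S ∪ S.biUnion (fun L => Bd N B ε₁ S L)) ∪
            S.biUnion (fun L => SmL N B u ε₁ S L)) ∪ Z3 := by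
        intro p hp
        rw [mem_filter] at hp
        obtain ⟨hpA', hpx⟩ := hp
        obtain ⟨hpA, hpx1⟩ := mem_filter.1 hpA'
        by_contra hno
        simp only [mem_union, not_or] at hno
        obtain ⟨⟨⟨g1, g2⟩, g3⟩, g4⟩ := hno
        apply g1
        unfold G3
        rw [mem_filter]
        refine ⟨hpA, fun L hL => ?_⟩
        have hbig : Real.log N ^ (B * u) < ((lf L p).natAbs : ℝ) := by
          by_contra hcon
          exact g4 (mem_biUnion.2 ⟨L, hL, mem_filter.2 ⟨hpA, not_lt.1 hcon⟩⟩)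
        have hpow0 : (0 : ℝ) ≤ Real.log N ^ (B * u) := by positivity
        have hn0 : (lf L p).natAbs ≠ 0 := by
          intro h0
          rw [h0, Nat.cast_zero] at hbig
          linarith
        have hne : lf L p ≠ 0 := by
          intro h0
          exact hn0 (Int.natAbs_eq_zero.2 h0)
        have hpp := hA p hpA
        have hpI : p ∈ Icc 1 N := mem_Icc.2 ⟨hpp.1.pos, hpp.2⟩
        obtain ⟨m, s, h3, h4, h5, h6⟩ := structS hζ hζ1 hr1 hN2 (hS.sys.fo L hL) hpp.2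
          (w := Real.log N ^ B) hne (by
          intro l hl hld
          by_contra hcon
          rw [not_or, not_lt, not_le] at hcon
          obtain ⟨hc1, hc2⟩ := hcon
          have hldi : (l : ℤ) ∣ lf L p := Int.natCast_dvd.2 hld
          have hldF : (l : ℤ) ∣ Fp S p := by
            unfold Fp
            exact hldi.trans (Finset.dvd_prod_of_mem (fun L => lf L (p : ℤ)) hL)
          have hlN : l ≤ N := by
            have h3 : (N : ℝ) ^ ζ ≤ N := by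
              calc (N : ℝ) ^ ζ ≤ (N : ℝ) ^ (1 : ℝ) :=
                    Real.rpow_le_rpow_of_exponent_le hN1.le (by linarith)
                _ = N := Real.rpow_one _
            exact_mod_cast (hc2.le.trans h3)
          by_cases hg : gp S l
          · rcases lt_or_ge (tt N l) ε₁ with ht | ht
            · exact xx_ndvd hpx1 l (mem_PK.2 ⟨mem_P1.2 ⟨⟨hl.pos, hlN⟩, hl, hc1, ht⟩, hg⟩) hldF
            · apply hpx l _ hldF
              unfold PS
              exact mem_filter.2 ⟨mem_pr.2 ⟨⟨hl.pos, hlN⟩, hl, ht,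
                (tt_lt_iff hN2 hl.pos _).2 hc2⟩, hg⟩
          · apply g2
            rw [mem_biUnion]
            refine ⟨L, hL, ?_⟩
            unfold Bd
            rw [mem_filter]
            exact ⟨hpI, hpp.1, hpx1, hne, l, hl, hc1, hg, hldi⟩)
        have hm0 : m ≠ 0 := by
          rintro rfl
          exact hn0 (by rw [h3, zero_mul])
        have hs0 : s ≠ 0 := by
          rintro rfl
          exact hn0 (by rw [h3, mul_zero])
        have hm : (m : ℝ) ≤ Real.log N ^ (B * u) := by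
          by_contra hm
          rw [not_le] at hm
          apply g3
          rw [mem_biUnion]
          refine ⟨L, hL, ?_⟩
          unfold SmL
          rw [mem_filter]
          exact ⟨hpI, hpp.1, hne, hpx1, m, Dvd.intro _ h3.symm, h4, hm⟩
        refine ⟨m, s, h3, Nat.pos_of_ne_zero hm0, hm, ?_, h5, h6⟩
        by_contra hs1
        have hs2 : s = 1 := by omega
        rw [h3, hs2, mul_one] at hbig
        linarith
      have h3 := (Finset.card_le_card h2).trans (Finset.card_union_le _ _)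
      have h4 := Finset.card_union_le (G3 A N (B * u) r S ∪ S.biUnion (fun L => Bd N B ε₁ S L))
        (S.biUnion (fun L => SmL N B u ε₁ S L))
      have h5 := Finset.card_union_le (G3 A N (B * u) r S) (S.biUnion (fun L => Bd N B ε₁ S L))
      have h6 : (A'.filter (fun p : ℕ => ∀ l ∈ PS N ε₁ ζ S, ¬ (l : ℤ) ∣ Fp S p)).card ≤
          (G3 A N (B * u) r S).card + (S.biUnion (fun L => Bd N B ε₁ S L)).card +
          (S.biUnion (fun L => SmL N B u ε₁ S L)).card + Z3.card := by omega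
      exact_mod_cast h6
    have hVD0 : 0 < V * D := by positivity
    have hcc1 : ((S.biUnion (fun L => Bd N B ε₁ S L)).card : ℝ) ≤ σ * (V * D) := by
      refine (biUnion_card_le hS.sys.card _ (fun L hL => hN₆ N hNN₆ S hS L hL)).trans (le_of_eq ?_)
      rw [← hV, ← hD]
      field_simp
    have hcc2 : ((S.biUnion (fun L => SmL N B u ε₁ S L)).card : ℝ) ≤ σ * (V * D) := by
      refine (biUnion_card_le hS.sys.card _ (fun L hL => hN₅ N hNN₅ S hS L hL)).trans ?_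
      rw [← hV, ← hD]
      calc (k : ℝ) * (C₅ * Real.exp (-(u : ℝ)) * V * D) =
            (k * (C₅ * Real.exp (-(u : ℝ)))) * (V * D) := by ring
        _ ≤ _ := mul_le_mul_of_nonneg_right hu hVD0.le
    have hcc3 : (Z3.card : ℝ) ≤ σ * (V * D) := by
      have hp1 : (1 : ℝ) ≤ Real.log N ^ (B * u) := one_le_pow₀ hL1.le
      have h1 : (Z3.card : ℝ) ≤ k * (3 * Real.log N ^ (B * u)) := by
        apply biUnion_card_le hS.sys.card
        intro L hL
        have := small_card (hS.sys.fo L hL).b1 A (show 0 ≤ Real.log N ^ (B * u) by positivity)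
        linarith
      refine h1.trans ?_
      have h2 := hN₇ N hNN₇
      rw [Real.rpow_one] at h2
      have h3 : 1 / Real.log N ^ k * D ≤ V * D := mul_le_mul_of_nonneg_right hV2 hD0.le
      refine le_trans ?_ (mul_le_mul_of_nonneg_left h3 hσ0.le)
      have h4 : σ * (1 / Real.log N ^ k * D) = σ * N / Real.log N ^ (k + 1) := by
        rw [hD, pow_succ]
        field_simp
      rw [h4, le_div_iff₀ (by positivity)]
      calc (k : ℝ) * (3 * Real.log N ^ (B * u)) * Real.log N ^ (k + 1)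
          = 3 * k * Real.log N ^ (B * u + (k + 1)) := by rw [pow_add]; ring
        _ ≤ 3 * k * (σ / (3 * k) * N) := by gcongr
        _ = σ * N := by field_simp
    have hR3 : 1 / ε₁ * R S ≤ c₀ * ε₁ ^ k * δ / 4 * (V * D) := by
      calc 1 / ε₁ * R S ≤ 1 / ε₁ * (κ * V * D) := by gcongr
        _ = _ := by
            rw [hκ, pow_succ]
            field_simp
    have hAδ : c₀ * ε₁ ^ k * V * (δ * D) ≤ c₀ * ε₁ ^ k * V * A.card := by
      have : 0 ≤ c₀ * ε₁ ^ k * V := by positivity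
      exact mul_le_mul_of_nonneg_left hAc this
    have hA'2 : c₀ * ε₁ ^ k * (V * (A.card : ℝ) / 2) ≤ c₀ * ε₁ ^ k * A'.card := by
      have : 0 ≤ c₀ * ε₁ ^ k := by positivity
      exact mul_le_mul_of_nonneg_left hA'c this
    have hgood2 : c₀ * ε₁ ^ k * c₂ / 8 * (Real.log (Real.log N) / Real.log N) ^ k * A.card ≤
        c₀ * ε₁ ^ k / 8 * V * A.card := by
      calc c₀ * ε₁ ^ k * c₂ / 8 * (Real.log (Real.log N) / Real.log N) ^ k * A.card
          = c₀ * ε₁ ^ k / 8 * (c₂ * (Real.log (Real.log N) / Real.log N) ^ k) * A.card := by ring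
        _ ≤ _ := by gcongr
    have hσV : σ * (V * D) = c₀ * ε₁ ^ k * V * (δ * D) / 32 := by
      rw [hσ]
      ring
    rw [hσV] at hcc1 hcc2 hcc3
    nlinarith

end Pool.Agent.W23.KS
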