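import Pool.Agent.W23.KS.Defs
import Pool.Agent.W23.KT.Fin3
import Pool.Agent.W23.PL.Fin2

/-!
KS project (helper23): the sieve and the bad primes.
-/

namespace Pool.Agent.W23.KS

open Finset Filter
open Pool.Agent.H442R2
open Pool.Agent.H442R2.KF
open Pool.Agent.W23.DC
open Pool.Agent.W23.SG
open Pool.Agent.W23.PL
open Pool.Agent.W23.KT

open Classical in
/-- the elements of `A` at which no form has a prime factor in `PK` -/
noncomputable def AS (A : Finset ℕ) (N B : ℕ) (ε₁ : ℝ) (S : Finset (ℤ × ℕ)) : Finset ℕ :=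
  A.filter (fun p : ℕ => xx (PK N B ε₁ S) (Fp S p) = 1)

theorem fA_AS (A : Finset ℕ) (N B : ℕ) (ε₁ : ℝ) (S : Finset (ℤ × ℕ)) :
    fA (AS A N B ε₁ S) = fun p : ℕ => fA A p * xx (PK N B ε₁ S) (Fp S p) := by
  classical
  funext p
  unfold fA AS
  by_cases h : p ∈ A
  · by_cases hx : xx (PK N B ε₁ S) (Fp S p) = 1
    · rw [if_pos (mem_filter.2 ⟨h, hx⟩), if_pos h, hx, mul_one]
    · have hnp : p ∉ A.filter (fun p : ℕ => xx (PK N B ε₁ S) (Fp S p) = 1) :=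
        fun hh => hx (mem_filter.1 hh).2
      rw [if_neg hnp, if_pos h, one_mul]
      unfold xx at hx ⊢
      split_ifs with h1
      · exact absurd (if_pos h1) hx
      · rfl
  · have hnp : p ∉ A.filter (fun p : ℕ => xx (PK N B ε₁ S) (Fp S p) = 1) :=
      fun hh => h (mem_filter.1 hh).1
    rw [if_neg hnp, if_neg h, zero_mul]

theorem card_AS {A : Finset ℕ} {N : ℕ} (hA : ∀ p ∈ A, p.Prime ∧ p ≤ N) (B k : ℕ) (ε₁ : ℝ)
    (S : Finset (ℤ × ℕ)) :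
    ((AS A N B ε₁ S).card : ℝ) - Vk k (PK N B ε₁ S) * A.card =
      ∑ p ∈ (Icc 1 N).filter Nat.Prime,
        fA A p * (xx (PK N B ε₁ S) (Fp S p) - Vk k (PK N B ε₁ S)) := by
  classical
  have hsub : A ⊆ (Icc 1 N).filter Nat.Prime := by
    intro p hp
    have := hA p hp
    rw [mem_filter, mem_Icc]
    exact ⟨⟨this.1.pos, this.2⟩, this.1⟩
  rw [← Finset.sum_subset hsub (fun p _ hpn => by
    unfold fA
    rw [if_neg hpn, zero_mul])]
  have h1 : ∑ p ∈ A, fA A p * (xx (PK N B ε₁ S) (Fp S p) - Vk k (PK N B ε₁ S)) =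
      ∑ p ∈ A, (xx (PK N B ε₁ S) (Fp S (p : ℤ)) - Vk k (PK N B ε₁ S)) := by
    apply Finset.sum_congr rfl
    intro p hp
    unfold fA
    rw [if_pos hp, one_mul]
  rw [h1, Finset.sum_sub_distrib, Finset.sum_const, nsmul_eq_mul]
  have h2 : ((AS A N B ε₁ S).card : ℝ) = ∑ p ∈ A, xx (PK N B ε₁ S) (Fp S (p : ℤ)) := by
    unfold AS
    rw [Finset.card_filter]
    push_cast
    apply Finset.sum_congr rfl
    intro p _
    unfold xx
    split_ifs <;> simp_all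
  rw [h2]
  ring

open Classical in
/-- the moduli of the sieve -/
noncomputable def TB (N : ℕ) (ε₁ : ℝ) (S : Finset (ℤ × ℕ)) : Finset ℕ :=
  (Icc 1 ⌊(N : ℝ) ^ (49 / 100 : ℝ)⌋₊).filter (fun d => BlK N ε₁ S d)

/-- the sieve lower bound -/
theorem sieveU (hBHU : St_BHU) (k : ℕ) (hk : 1 ≤ k) : ∃ ζ c : ℝ, 0 < ζ ∧ ζ ≤ 1 / 10 ∧ 0 < c ∧
    ∀ ε₁ : ℝ, 0 < ε₁ → ε₁ < ζ → ∃ N₀ : ℕ, ∀ N : ℕ, N₀ ≤ N → ∀ A : Finset ℕ,
    (∀ p ∈ A, p.Prime ∧ p ≤ N) → ∀ S : Finset (ℤ × ℕ),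
    c * ε₁ ^ k * A.card - 1 / ε₁ * ∑ d ∈ TB N ε₁ S, |DK k (fA A) N S d| ≤
      ∑ p ∈ A, xx (PS N ε₁ ζ S) (Fp S p) := by
  classical
  obtain ⟨ζ, c, hζ, hζ2, hc, H⟩ := hBHU k hk
  refine ⟨ζ, c, hζ, hζ2, hc, fun ε₁ hε hεζ => ?_⟩
  obtain ⟨N₀, H1⟩ := H ε₁ hε hεζ
  refine ⟨max N₀ 2, fun N hN A hA S => ?_⟩
  have hN2 : 2 ≤ N := (le_max_right _ _).trans hN
  have hN1 : (1 : ℝ) < N := by exact_mod_cast (by omega : 1 < N)
  obtain ⟨th, h1, h2, h3, h4⟩ := H1 N ((le_max_left _ _).trans hN) (PS N ε₁ ζ S)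
    (Finset.filter_subset _ _)
  set D := ⌊(N : ℝ) ^ (49 / 100 : ℝ)⌋₊ with hD
  have e1 : ∑ p ∈ A, ∑ e ∈ Icc 1 D, th e * (if (e : ℤ) ∣ Fp S p then (1 : ℝ) else 0) =
      (A.card : ℝ) * (∑ e ∈ Icc 1 D, th e * (kw k e / (Nat.totient e : ℝ))) +
        ∑ e ∈ Icc 1 D, th e * DK k (fA A) N S e := by
    rw [Finset.sum_comm, Finset.mul_sum, ← Finset.sum_add_distrib]
    apply Finset.sum_congr rfl
    intro e _
    rw [← Finset.mul_sum, countK hA k S e]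
    ring
  have e2 : ∑ p ∈ A, ∑ e ∈ Icc 1 D, th e * (if (e : ℤ) ∣ Fp S p then (1 : ℝ) else 0) ≤
      ∑ p ∈ A, xx (PS N ε₁ ζ S) (Fp S p) := by
    apply Finset.sum_le_sum
    intro p _
    have := h3 (Fp S p)
    convert this using 2
  have e3 : |∑ e ∈ Icc 1 D, th e * DK k (fA A) N S e| ≤
      1 / ε₁ * ∑ d ∈ TB N ε₁ S, |DK k (fA A) N S d| := by
    have hz : ∀ e ∈ Icc 1 D, e ∉ TB N ε₁ S → th e * DK k (fA A) N S e = 0 := by
      intro e he heT
      by_cases hth : th e = 0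
      · rw [hth, zero_mul]
      · obtain ⟨g1, g2, g3⟩ := h2 e hth
        rw [mem_Icc] at he
        by_cases he1 : e = 1
        · rw [he1, DK_one, mul_zero]
        · exfalso
          apply heT
          unfold TB
          rw [mem_filter, mem_Icc]
          refine ⟨⟨he.1, he.2⟩, ⟨by omega, he.2, g1, fun p hp hpe => ?_⟩, fun p hp hpe => ?_⟩
          · have h5 := g3 p hp hpe
            unfold PS at h5
            rw [mem_filter, mem_pr] at h5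
            refine ⟨?_, h5.2⟩
            have h6 := (le_tt_iff hN2 hp.pos _).1 h5.1.2.2.1
            exact lt_of_lt_of_le (Real.rpow_lt_rpow_of_exponent_lt hN1 (by linarith)) h6
          · have h5 := g3 p hp hpe
            unfold PS at h5
            rw [mem_filter, mem_pr] at h5
            exact h5.1.2.2.1
    have hsub : TB N ε₁ S ⊆ Icc 1 D := Finset.filter_subset _ _
    rw [← Finset.sum_subset hsub hz]
    calc |∑ e ∈ TB N ε₁ S, th e * DK k (fA A) N S e|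
        ≤ ∑ e ∈ TB N ε₁ S, |th e * DK k (fA A) N S e| := Finset.abs_sum_le_sum_abs _ _
      _ ≤ ∑ e ∈ TB N ε₁ S, 1 / ε₁ * |DK k (fA A) N S e| := by
          apply Finset.sum_le_sum
          intro e _
          rw [abs_mul]
          exact mul_le_mul_of_nonneg_right (h1 e) (abs_nonneg _)
      _ = _ := by rw [Finset.mul_sum]
  have e4 := (abs_le.1 e3).1
  have e5 : c * ε₁ ^ k * A.card ≤
      (A.card : ℝ) * (∑ e ∈ Icc 1 D, th e * (kw k e / (Nat.totient e : ℝ))) := by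
    have := mul_le_mul_of_nonneg_left h4 (Nat.cast_nonneg A.card : (0 : ℝ) ≤ A.card)
    linarith
  linarith

/-- lower bound for `Vk` -/
theorem Vk_ge (hVLBK : St_VLBK) (k : ℕ) (hk : 1 ≤ k) : ∃ c₂ : ℝ, 0 < c₂ ∧ ∀ M B : ℕ, 2 ≤ B →
    ∀ ε₁ : ℝ, 0 < ε₁ → ε₁ ≤ 1 → ∃ N₀ : ℕ, 3 ≤ N₀ ∧ ∀ N : ℕ, N₀ ≤ N →
      c₂ * (Real.log (Real.log N) / Real.log N) ^ k ≤ Vk k (P1 N B ε₁) ∧
      1 / Real.log N ^ k ≤ Vk k (P1 N B ε₁) ∧
      ∀ S, Sys k M N S → Vk k (P1 N B ε₁) ≤ Vk k (PK N B ε₁ S) ∧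
        Vk k (PK N B ε₁ S) ≤ 2 * Vk k (P1 N B ε₁) := by
  obtain ⟨c₂, hc₂, h⟩ := hVLBK k hk
  refine ⟨c₂, hc₂, fun M B hB ε₁ hε hε1 => ?_⟩
  obtain ⟨N₀, hN₀⟩ := h M B hB ε₁ hε hε1
  have hlim : Tendsto (fun N : ℕ => Real.log (Real.log (N : ℝ))) atTop atTop :=
    Real.tendsto_log_atTop.comp (Real.tendsto_log_atTop.comp tendsto_natCast_atTop_atTop)
  obtain ⟨N₁, hN₁⟩ := Filter.eventually_atTop.1 (hlim.eventually_ge_atTop (max 1 (1 / c₂)))
  refine ⟨max N₀ (max N₁ 3), (le_max_right _ _).trans (le_max_right _ _), fun N hN => ?_⟩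
  have hNN₀ : N₀ ≤ N := (le_max_left _ _).trans hN
  have hNN₁ : N₁ ≤ N := ((le_max_left _ _).trans (le_max_right _ _)).trans hN
  have hN3 : 3 ≤ N := ((le_max_right _ _).trans (le_max_right _ _)).trans hN
  have hL : 0 < Real.log N := Real.log_pos (by exact_mod_cast (by omega : 1 < N))
  obtain ⟨h1, -, h8⟩ := hN₀ N hNN₀
  have h2 := hN₁ N hNN₁
  have h3 : 1 ≤ Real.log (Real.log N) := (le_max_left _ _).trans h2
  have h4 : 1 / c₂ ≤ Real.log (Real.log N) := (le_max_right _ _).trans h2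
  have hB1 : (1 : ℝ) ≤ B := by exact_mod_cast (by omega : 1 ≤ B)
  have h5 : c₂ * (Real.log (Real.log N) / Real.log N) ^ k ≤
      c₂ * (B * Real.log (Real.log N) / (ε₁ * Real.log N)) ^ k := by
    apply mul_le_mul_of_nonneg_left _ hc₂.le
    apply pow_le_pow_left₀ (by positivity)
    rw [div_le_div_iff₀ hL (by positivity)]
    have h6 : ε₁ ≤ B := hε1.trans hB1
    have h7 : 0 ≤ Real.log (Real.log N) * Real.log N := by positivity
    nlinarith
  refine ⟨h5.trans h1, ?_, h8⟩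
  refine le_trans ?_ (h5.trans h1)
  rw [div_pow, ← mul_div_assoc]
  apply div_le_div_of_nonneg_right _ (by positivity)
  rw [div_le_iff₀ hc₂] at h4
  have h9 : Real.log (Real.log N) ≤ Real.log (Real.log N) ^ k := by
    calc Real.log (Real.log N) = Real.log (Real.log N) ^ 1 := (pow_one _).symm
      _ ≤ _ := pow_le_pow_right₀ h3 hk
  nlinarith

/-- the constant in the number of bad primes -/
noncomputable def bc (k M : ℕ) : ℝ := (k * M + k * k * (2 * M + 1)) / Real.log 2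

theorem bc_nonneg (k M : ℕ) : 0 ≤ bc k M := by
  unfold bc
  have : 0 < Real.log 2 := Real.log_pos (by norm_num)
  positivity

theorem bad_card (k M : ℕ) {N : ℕ} (hN : 2 ≤ N) (S : Finset (ℤ × ℕ))
    (hS : Sys k M N S) (B : Finset ℕ) (hB : ∀ l ∈ B, l.Prime ∧ ¬ gp S l) :
    (B.card : ℝ) ≤ bc k M * Real.log N := by
  have hN1 : (1 : ℝ) < N := by exact_mod_cast (by omega : 1 < N)
  have hN0 : (0 : ℝ) < N := by linarith
  have hL : 0 < Real.log N := Real.log_pos hN1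
  have h2 : 0 < Real.log 2 := Real.log_pos (by norm_num)
  have h := badK k M hN (ε₁ := Real.log 2 / Real.log N) (by positivity) S hS B (by
    intro l hl
    refine ⟨(hB l hl).1, ?_, (hB l hl).2⟩
    have h3 : (N : ℝ) ^ (Real.log 2 / Real.log N) = 2 := by
      rw [Real.rpow_def_of_pos hN0, mul_div_cancel₀ _ hL.ne', Real.exp_log (by norm_num)]
    rw [h3]
    exact_mod_cast (hB l hl).1.two_le)
  refine h.trans (le_of_eq ?_)
  unfold bc
  field_simp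

open Classical in
/-- the primes at which the form has a bad prime factor -/
noncomputable def Bd (N B : ℕ) (ε₁ : ℝ) (S : Finset (ℤ × ℕ)) (L : ℤ × ℕ) : Finset ℕ :=
  (Icc 1 N).filter (fun p : ℕ => p.Prime ∧ xx (PK N B ε₁ S) (Fp S p) = 1 ∧ lf L p ≠ 0 ∧
    ∃ l : ℕ, l.Prime ∧ Real.log N ^ B ≤ (l : ℝ) ∧ ¬ gp S l ∧ (l : ℤ) ∣ lf L p)

end Pool.Agent.W23.KS
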