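import Pool.Agent.W23.KS.Fin1

/-!
KS project (helper23): the bad primes, the structure of the values.
-/

namespace Pool.Agent.W23.KS

open Finset Filter
open Pool.Agent.H442R2
open Pool.Agent.H442R2.KF
open Pool.Agent.W23.DC
open Pool.Agent.W23.SG
open Pool.Agent.W23.PL
open Pool.Agent.W23.KT

theorem lf_le {M N : ℕ} (hN : 2 ≤ N) {L : ℤ × ℕ} (hL : FoM M N L) {p : ℕ} (hp : p ≤ N) :
    ((lf L p).natAbs : ℝ) ≤ (N : ℝ) ^ (M + 2) := by
  have hN1 : (1 : ℝ) < N := by exact_mod_cast (by omega : 1 < N)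
  have hN0 : (0 : ℝ) < N := by linarith
  have g1 : ((lf L p).natAbs : ℝ) = |(L.1 : ℝ) + L.2 * p| := by
    rw [Nat.cast_natAbs]
    unfold lf
    push_cast
    rfl
  have g2 : (p : ℝ) ≤ N := by exact_mod_cast hp
  have hN2r : (2 : ℝ) ≤ N := by exact_mod_cast hN
  rw [g1, pow_add]
  have hb0 : (0 : ℝ) ≤ (L.2 : ℝ) := Nat.cast_nonneg _
  calc |(L.1 : ℝ) + L.2 * p| ≤ |(L.1 : ℝ)| + |(L.2 : ℝ) * p| := abs_add_le _ _
    _ = |(L.1 : ℝ)| + (L.2 : ℝ) * p := by
        rw [abs_of_nonneg (by positivity : (0 : ℝ) ≤ (L.2 : ℝ) * p)]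
    _ ≤ (N : ℝ) ^ M + (N : ℝ) ^ M * N := by
        have := hL.a
        have := hL.b2
        gcongr
    _ = (N : ℝ) ^ M * (1 + N) := by ring
    _ ≤ (N : ℝ) ^ M * (N : ℝ) ^ 2 := by
        have h1N : 1 + (N : ℝ) ≤ (N : ℝ) ^ 2 := by nlinarith
        gcongr

/-- powers of the logarithm against powers -/
theorem logpow_small (j : ℕ) {a c : ℝ} (ha : 0 < a) (hc : 0 < c) :
    ∃ N₀ : ℕ, ∀ N : ℕ, N₀ ≤ N → Real.log N ^ j ≤ c * (N : ℝ) ^ a := by
  have hlim : Tendsto (fun x : ℝ => Real.log x ^ j / x ^ a) atTop (nhds 0) := by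
    have := (isLittleO_log_rpow_rpow_atTop (j : ℝ) ha).tendsto_div_nhds_zero
    simpa only [Real.rpow_natCast] using this
  obtain ⟨N₀, hN₀⟩ := Filter.eventually_atTop.1
    ((hlim.comp (tendsto_natCast_atTop_atTop (R := ℝ))).eventually_le_const hc)
  refine ⟨max N₀ 1, fun N hN => ?_⟩
  have h1 : Real.log N ^ j / (N : ℝ) ^ a ≤ c := hN₀ N ((le_max_left _ _).trans hN)
  have hN0 : (0 : ℝ) < N := by exact_mod_cast (le_max_right _ _).trans hN
  rwa [div_le_iff₀ (by positivity)] at h1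

theorem log_large (a : ℝ) : ∃ N₀ : ℕ, ∀ N : ℕ, N₀ ≤ N → a ≤ Real.log N := by
  obtain ⟨N₀, hN₀⟩ := Filter.eventually_atTop.1
    ((Real.tendsto_log_atTop.comp (tendsto_natCast_atTop_atTop (R := ℝ))).eventually_ge_atTop a)
  exact ⟨N₀, fun N hN => hN₀ N hN⟩

/-- the primes at which a form has a bad prime factor -/
theorem badP (hUBSK : St_UBSK) (hVLBK : St_VLBK) (k M B : ℕ) (hk : 1 ≤ k) (hB : 2 ≤ B) {ε₁ : ℝ}
    (hε : 0 < ε₁) (hε1 : ε₁ ≤ 1) {τ : ℝ} (hτ : 0 < τ) : ∃ N₀ : ℕ, ∀ N : ℕ, N₀ ≤ N →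
    ∀ S, SysK k M N S → ∀ L ∈ S,
    ((Bd N B ε₁ S L).card : ℝ) ≤ τ * (Vk k (P1 N B ε₁) * (N / Real.log N)) := by
  classical
  obtain ⟨C, N₁, hC, H1⟩ := hUBSK k M B hk hB ε₁ hε hε1
  obtain ⟨c₂, hc₂, H2⟩ := Vk_ge hVLBK k hk
  obtain ⟨N₂, hN₂3, H2'⟩ := H2 M B hB ε₁ hε hε1
  set W := bc k M + 1 with hW
  have hW0 : 0 < W := by
    have := bc_nonneg k M
    rw [hW]
    linarith
  obtain ⟨N₃, H3⟩ := log_large (4 * C * W / τ + 1)
  obtain ⟨N₄, H4⟩ := logpow_small (k + 2) (show (0 : ℝ) < 1 / 20 by norm_num)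
    (show (0 : ℝ) < τ / (4 * W) by positivity)
  refine ⟨max (max N₁ N₂) (max N₃ N₄), fun N hN S hS L hL => ?_⟩
  have hNN₁ : N₁ ≤ N := ((le_max_left _ _).trans (le_max_left _ _)).trans hN
  have hNN₂ : N₂ ≤ N := ((le_max_right _ _).trans (le_max_left _ _)).trans hN
  have hNN₃ : N₃ ≤ N := ((le_max_left _ _).trans (le_max_right _ _)).trans hN
  have hNN₄ : N₄ ≤ N := ((le_max_right _ _).trans (le_max_right _ _)).trans hN
  have hN3 : 3 ≤ N := hN₂3.trans hNN₂
  have hN2 : 2 ≤ N := by omega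
  have hN1 : (1 : ℝ) < N := by exact_mod_cast (by omega : 1 < N)
  have hN0 : (0 : ℝ) < N := by linarith
  have hlog := H3 N hNN₃
  have hL1 : 1 ≤ Real.log N := by
    have : 0 ≤ 4 * C * W / τ := by positivity
    linarith
  have hL0 : 0 < Real.log N := by linarith
  obtain ⟨-, hV, -⟩ := H2' N hNN₂
  set V := Vk k (P1 N B ε₁) with hVdef
  have hV0 : 0 < V := lt_of_lt_of_le (by positivity) hV
  set D : ℝ := N / Real.log N with hD
  have hD0 : 0 < D := by positivity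
  -- the bad primes
  set Bp : Finset ℕ := (Icc 1 (N ^ (M + 2))).filter (fun l => l.Prime ∧
    Real.log N ^ B ≤ (l : ℝ) ∧ ¬ gp S l) with hBp
  have hBc : (Bp.card : ℝ) ≤ W * Real.log N := by
    have h := bad_card k M hN2 S hS.sys Bp (fun l hl => by
      rw [hBp, mem_filter] at hl
      exact ⟨hl.2.1, hl.2.2.2⟩)
    refine h.trans ?_
    rw [hW]
    gcongr
    linarith
  set G : ℕ → Finset ℕ := fun l => (Icc 1 N).filter (fun p : ℕ => p.Prime ∧ (l : ℤ) ∣ lf L p ∧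
    xx (PK N B ε₁ S) (Fp S p) = 1) with hG
  have hsub : Bd N B ε₁ S L ⊆ Bp.biUnion G := by
    intro p hp
    unfold Bd at hp
    rw [mem_filter, mem_Icc] at hp
    obtain ⟨⟨hp1, hpN⟩, hpp, hpx, hp0, l, hl, hlB, hlg, hld⟩ := hp
    rw [mem_biUnion]
    refine ⟨l, ?_, ?_⟩
    · rw [hBp, mem_filter, mem_Icc]
      refine ⟨⟨hl.pos, ?_⟩, hl, hlB, hlg⟩
      have h1 : l ≤ (lf L p).natAbs := Nat.le_of_dvd (by
        rw [Int.natAbs_pos]
        exact hp0) (Int.natCast_dvd.1 hld)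
      have h2 := lf_le hN2 (hS.sys.fo L hL) hpN
      have h3 : (l : ℝ) ≤ ((N ^ (M + 2) : ℕ) : ℝ) := by
        push_cast
        exact le_trans (by exact_mod_cast h1) h2
      exact_mod_cast h3
    · rw [hG]
      simp only
      rw [mem_filter, mem_Icc]
      exact ⟨⟨hp1, hpN⟩, hpp, hld, hpx⟩
  have hGc : ∀ l ∈ Bp, ((G l).card : ℝ) ≤
      2 * (N : ℝ) ^ (19 / 20 : ℝ) + 2 * C / Real.log N ^ 2 * (V * D) := by
    intro l hl
    rw [hBp, mem_filter, mem_Icc] at hl
    obtain ⟨-, hlp, hlB, -⟩ := hl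
    have hpow : (1 : ℝ) ≤ (N : ℝ) ^ (19 / 20 : ℝ) := Real.one_le_rpow hN1.le (by norm_num)
    have hpos2 : 0 ≤ 2 * C / Real.log N ^ 2 * (V * D) := by positivity
    have hFo := hS.sys.fo L hL
    by_cases hlb : l ∣ L.2
    · have : G l = ∅ := by
        apply Finset.filter_eq_empty_iff.2
        intro p _ h
        exact not_dvd_b hFo.cop hlp h.2.1 hlb
      rw [this]
      simp only [card_empty, Nat.cast_zero]
      positivity
    · by_cases hla : (l : ℤ) ∣ L.1
      · have h1 : (G l).card ≤ 1 := by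
          apply Finset.card_le_one.2
          have h2 : ∀ p ∈ G l, p = l := by
            intro p hp
            rw [hG] at hp
            simp only at hp
            rw [mem_filter] at hp
            obtain ⟨-, hpp, hpd, -⟩ := hp
            have h3 : (l : ℤ) ∣ (L.2 : ℤ) * p := by
              have h4 : (L.2 : ℤ) * p = lf L p - L.1 := by
                unfold lf
                ring
              rw [h4]
              exact dvd_sub hpd hla
            have h5 : l ∣ L.2 * p := by exact_mod_cast h3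
            rcases (hlp.dvd_mul).1 h5 with h6 | h6
            · exact absurd h6 hlb
            · exact ((Nat.prime_dvd_prime_iff_eq hlp hpp).1 h6).symm
          intro p hp q hq
          rw [h2 p hp, h2 q hq]
        have h2 : ((G l).card : ℝ) ≤ 1 := by exact_mod_cast h1
        linarith
      · rcases le_or_gt (l : ℝ) ((N : ℝ) ^ (1 / 20 : ℝ)) with hle | hgt
        · have h1 := H1 N hNN₁ S hS L hL l hlp.pos hle (by
            rw [← Int.isCoprime_iff_gcd_eq_one]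
            exact ((Nat.prime_iff_prime_int.1 hlp).coprime_iff_not_dvd.2 hla).symm)
            ((hlp.coprime_iff_not_dvd.2 hlb).symm)
          have h2 : ((G l).card : ℝ) ≤ C * (N / (Nat.totient l * Real.log N)) * V := by
            refine le_trans (le_of_eq ?_) h1
            congr 2
          refine h2.trans ?_
          have h3 : Real.log N ^ 2 / 2 ≤ (Nat.totient l : ℝ) := by
            rw [Nat.totient_prime hlp, Nat.cast_sub hlp.one_lt.le, Nat.cast_one]
            have h4 : (2 : ℝ) ≤ l := by exact_mod_cast hlp.two_le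
            have h5 : Real.log N ^ 2 ≤ Real.log N ^ B := pow_le_pow_right₀ hL1 hB
            linarith
          have h4 : 0 < Real.log N ^ 2 / 2 := by positivity
          have h6 : C * (N / (Nat.totient l * Real.log N)) * V ≤
              C * (N / (Real.log N ^ 2 / 2 * Real.log N)) * V := by gcongr
          have h7 : C * (N / (Real.log N ^ 2 / 2 * Real.log N)) * V =
              2 * C / Real.log N ^ 2 * (V * D) := by
            rw [hD]
            field_simp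
          have h8 : 0 ≤ 2 * (N : ℝ) ^ (19 / 20 : ℝ) := by positivity
          linarith
        · have h3 := one_class hlp.pos (Icc 1 N) (fun p hp => (mem_Icc.1 hp).2) L
            ((hlp.coprime_iff_not_dvd).2 hlb)
          have h4 : ((G l).card : ℝ) ≤
              (((Icc 1 N).filter (fun p : ℕ => (l : ℤ) ∣ lf L p)).card : ℝ) := by
            exact_mod_cast Finset.card_le_card (fun p hp => by
              rw [hG] at hp
              simp only at hp
              rw [mem_filter] at hp ⊢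
              exact ⟨hp.1, hp.2.2.1⟩)
          have h5 : (N : ℝ) / l ≤ (N : ℝ) ^ (19 / 20 : ℝ) := by
            have h6 : (N : ℝ) ^ (19 / 20 : ℝ) = N / (N : ℝ) ^ (1 / 20 : ℝ) := by
              rw [eq_div_iff (by positivity), ← Real.rpow_add hN0]
              norm_num
            rw [h6]
            exact div_le_div_of_nonneg_left hN0.le (by positivity) hgt.le
          linarith
  have hsum : ((Bd N B ε₁ S L).card : ℝ) ≤
      W * Real.log N * (2 * (N : ℝ) ^ (19 / 20 : ℝ) + 2 * C / Real.log N ^ 2 * (V * D)) := by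
    have h1 : (Bd N B ε₁ S L).card ≤ ∑ l ∈ Bp, (G l).card :=
      (Finset.card_le_card hsub).trans Finset.card_biUnion_le
    calc ((Bd N B ε₁ S L).card : ℝ) ≤ ∑ l ∈ Bp, ((G l).card : ℝ) := by exact_mod_cast h1
      _ ≤ ∑ _l ∈ Bp, (2 * (N : ℝ) ^ (19 / 20 : ℝ) + 2 * C / Real.log N ^ 2 * (V * D)) :=
          Finset.sum_le_sum hGc
      _ = Bp.card * (2 * (N : ℝ) ^ (19 / 20 : ℝ) + 2 * C / Real.log N ^ 2 * (V * D)) := by
          rw [Finset.sum_const, nsmul_eq_mul]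
      _ ≤ _ := by gcongr
  refine hsum.trans ?_
  have hA1 : W * Real.log N * (2 * (N : ℝ) ^ (19 / 20 : ℝ)) ≤ τ / 2 * (V * D) := by
    have h1 := H4 N hNN₄
    have h2 : (N : ℝ) = (N : ℝ) ^ (19 / 20 : ℝ) * (N : ℝ) ^ (1 / 20 : ℝ) := by
      rw [← Real.rpow_add hN0]
      norm_num
    have h3 : τ / 2 * (1 / Real.log N ^ k * D) ≤ τ / 2 * (V * D) := by gcongr
    refine le_trans ?_ h3
    have h4 : τ / 2 * (1 / Real.log N ^ k * D) = τ / 2 * N / Real.log N ^ (k + 1) := by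
      rw [hD, pow_succ]
      field_simp
    rw [h4, le_div_iff₀ (by positivity)]
    calc W * Real.log N * (2 * (N : ℝ) ^ (19 / 20 : ℝ)) * Real.log N ^ (k + 1)
        = 2 * W * (N : ℝ) ^ (19 / 20 : ℝ) * Real.log N ^ (k + 2) := by ring
      _ ≤ 2 * W * (N : ℝ) ^ (19 / 20 : ℝ) * (τ / (4 * W) * (N : ℝ) ^ (1 / 20 : ℝ)) := by gcongr
      _ = τ / 2 * ((N : ℝ) ^ (19 / 20 : ℝ) * (N : ℝ) ^ (1 / 20 : ℝ)) := by
          field_simp
          ring
      _ = τ / 2 * N := by rw [← h2]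
  have hA2 : W * Real.log N * (2 * C / Real.log N ^ 2 * (V * D)) ≤ τ / 2 * (V * D) := by
    have h1 : W * Real.log N * (2 * C / Real.log N ^ 2 * (V * D)) =
        2 * C * W / Real.log N * (V * D) := by
      field_simp
    rw [h1]
    apply mul_le_mul_of_nonneg_right _ (by positivity)
    rw [div_le_iff₀ hL0]
    have h2 : 4 * C * W / τ ≤ Real.log N := by linarith
    rw [div_le_iff₀ hτ] at h2
    linarith
  calc _ = W * Real.log N * (2 * (N : ℝ) ^ (19 / 20 : ℝ)) +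
        W * Real.log N * (2 * C / Real.log N ^ 2 * (V * D)) := by ring
    _ ≤ τ / 2 * (V * D) + τ / 2 * (V * D) := add_le_add hA1 hA2
    _ = _ := by ring

open Classical in
/-- the elements of `A` at which all forms are almost prime -/
noncomputable def G3 (A : Finset ℕ) (X t r : ℕ) (S : Finset (ℤ × ℕ)) : Finset ℕ :=
  A.filter (fun p : ℕ => ∀ L ∈ S,
    ∃ m s : ℕ, (L.1 + L.2 * (p : ℤ)).natAbs = m * s ∧ 1 ≤ m ∧ (m : ℝ) ≤ Real.log X ^ t ∧ 1 < s ∧
      s.primeFactorsList.length ≤ r ∧ ∀ q ∈ s.primeFactors, (X : ℝ) ^ (1 / r : ℝ) ≤ q)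

/-- the structure of the values -/
theorem structS {M : ℕ} {ζ : ℝ} (hζ : 0 < ζ) (hζ1 : ζ ≤ 1 / 10) {r : ℕ} (hr : (M + 2) / ζ ≤ r)
    {N : ℕ} (hN : 2 ≤ N) {L : ℤ × ℕ} (hL : FoM M N L) {p : ℕ} (hp : p ≤ N) {w : ℝ}
    (h0 : lf L p ≠ 0) (hs : ∀ l : ℕ, l.Prime → l ∣ (lf L p).natAbs →
      (l : ℝ) < w ∨ (N : ℝ) ^ ζ ≤ l) :
    ∃ m s : ℕ, (lf L p).natAbs = m * s ∧ (∀ l : ℕ, l.Prime → l ∣ m → (l : ℝ) < w) ∧
      s.primeFactorsList.length ≤ r ∧ ∀ q ∈ s.primeFactors, (N : ℝ) ^ (1 / r : ℝ) ≤ q := by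
  have hN1 : (1 : ℝ) < N := by exact_mod_cast (by omega : 1 < N)
  have hN0 : (0 : ℝ) < N := by linarith
  have hn0 : (lf L p).natAbs ≠ 0 := by
    rw [Ne, Int.natAbs_eq_zero]
    exact h0
  obtain ⟨m, s, h1, h2, h3, h4⟩ := decomp ((N : ℝ) ^ ζ) _ hn0
  have hM2 : (0 : ℝ) < (M + 2) / ζ := by positivity
  have hr0 : (0 : ℝ) < r := lt_of_lt_of_le hM2 hr
  have hm0 : m ≠ 0 := by
    rintro rfl
    exact hn0 (by rw [h1, zero_mul])
  have hval : ((lf L p).natAbs : ℝ) ≤ (N : ℝ) ^ ((M : ℝ) + 2) := by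
    refine (lf_le hN hL hp).trans (le_of_eq ?_)
    rw [show ((M : ℝ) + 2) = ((M + 2 : ℕ) : ℝ) by push_cast; ring, Real.rpow_natCast]
  refine ⟨m, s, h1, ?_, ?_, ?_⟩
  · intro l hl hlm
    rcases hs l hl (h1 ▸ hlm.mul_right s) with h | h
    · exact h
    · have := h2 l hl hlm
      linarith
  · have h5 := h4 (by positivity)
    have h6 : (s : ℝ) ≤ (N : ℝ) ^ ((M : ℝ) + 2) := by
      refine le_trans ?_ hval
      have : s ≤ (lf L p).natAbs := by
        rw [h1]
        exact Nat.le_mul_of_pos_left s (Nat.pos_of_ne_zero hm0)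
      exact_mod_cast this
    have h7 := h5.trans h6
    rw [← Real.rpow_natCast, ← Real.rpow_mul hN0.le] at h7
    have h8 := (Real.rpow_le_rpow_left_iff hN1).1 h7
    have h9 : (s.primeFactorsList.length : ℝ) ≤ (M + 2) / ζ := by
      rw [le_div_iff₀ hζ]
      linarith
    exact_mod_cast h9.trans hr
  · intro q hq
    refine le_trans (Real.rpow_le_rpow_of_exponent_le hN1.le ?_) (h3 q hq)
    rw [div_le_iff₀ hr0]
    have h10 : 1 ≤ (M + 2) / ζ * ζ := by
      rw [div_mul_cancel₀ _ hζ.ne']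
      have : (0 : ℝ) ≤ M := Nat.cast_nonneg _
      linarith
    nlinarith

end Pool.Agent.W23.KS
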